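import Mathlib
import Pool.Agent.N792.FlGen
import Pool.Agent.U839.Sv.Fin

set_option autoImplicit false

/-! # Sums over the elements of residue classes in the sieve model -/

open Finset Filter Topology

namespace Pool.Agent.U839.Eh

open Pool.Agent.U839.Sv (Pr mem_Pr W W_eq W_pos one_sub_pos exists_level fT fT_nonneg)

/-- the density of the sifted elements of a residue class -/
noncomputable def rho (d t : ℕ) : ℝ := 1 / (d : ℝ) * ∏ p ∈ (Pr t).filter (fun p => ¬ p ∣ d), (1 - 1 / (p : ℝ))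

/-- the model of `1/φ(d)` -/
noncomputable def ph (d t : ℕ) : ℝ := 1 / (d : ℝ) * ∏ p ∈ (Pr t).filter (fun p => p ∣ d), (1 - 1 / (p : ℝ))⁻¹

theorem rho_nonneg (d t : ℕ) : 0 ≤ rho d t := by
  unfold rho
  apply mul_nonneg (by positivity)
  apply Finset.prod_nonneg
  intro p hp
  rw [mem_filter, mem_Pr] at hp
  exact (one_sub_pos hp.1.1).le

theorem ph_nonneg (d t : ℕ) : 0 ≤ ph d t := by
  unfold ph
  apply mul_nonneg (by positivity)
  apply Finset.prod_nonneg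
  intro p hp
  rw [mem_filter, mem_Pr] at hp
  exact inv_nonneg.2 (one_sub_pos hp.1.1).le

theorem W_rho (d t : ℕ) : W t * rho d t = ph d t := by
  unfold rho ph
  rw [W_eq, ← prod_filter_mul_prod_filter_not (Pr t) (fun p => p ∣ d)]
  have h : (∏ p ∈ (Pr t).filter (fun p => ¬ p ∣ d), (1 - 1 / (p : ℝ))⁻¹) *
      ∏ p ∈ (Pr t).filter (fun p => ¬ p ∣ d), (1 - 1 / (p : ℝ)) = 1 := by
    rw [← prod_mul_distrib]
    apply prod_eq_one
    intro p hp
    rw [mem_filter, mem_Pr] at hp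
    exact inv_mul_cancel₀ (one_sub_pos hp.1.1).ne'
  calc (∏ p ∈ (Pr t).filter (fun p => p ∣ d), (1 - 1 / (p : ℝ))⁻¹) *
        (∏ p ∈ (Pr t).filter (fun p => ¬ p ∣ d), (1 - 1 / (p : ℝ))⁻¹) *
        (1 / (d : ℝ) * ∏ p ∈ (Pr t).filter (fun p => ¬ p ∣ d), (1 - 1 / (p : ℝ)))
      = (1 / (d : ℝ) * ∏ p ∈ (Pr t).filter (fun p => p ∣ d), (1 - 1 / (p : ℝ))⁻¹) *
        ((∏ p ∈ (Pr t).filter (fun p => ¬ p ∣ d), (1 - 1 / (p : ℝ))⁻¹) *
        ∏ p ∈ (Pr t).filter (fun p => ¬ p ∣ d), (1 - 1 / (p : ℝ))) := by ring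
    _ = _ := by rw [h, mul_one]

open Classical in
/-- sifted elements of a residue class -/
noncomputable def ind (d l t n : ℕ) : ℝ := if n % d = l % d ∧ ∀ p, p.Prime → p ≤ t → ¬ p ∣ n then 1 else 0

/-- the fundamental lemma in a residue class -/
theorem ap_cnt : ∃ C K : ℕ, 1 ≤ K ∧ ∀ (b t d l n1 n2 : ℕ), C ≤ b → 1 ≤ d → l.Coprime d → n1 ≤ n2 →
    |∑ n ∈ Ioc n1 n2, ind d l t n - ((n2 : ℝ) - n1) * rho d t| ≤
      (1 / 2) ^ b * (((n2 : ℝ) - n1) * rho d t) + K * ((t : ℝ) + 2) ^ (4 * (C * b) + 2) := by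
  classical
  obtain ⟨C, hC, H⟩ := Pool.Agent.N792.fl_gen'
  refine ⟨C * 2, (C * 2) ^ (C * 2), Nat.one_le_pow _ _ (by omega), fun b t d l n1 n2 hb hd hld h12 => ?_⟩
  obtain ⟨J, hJ1, hJ2, hJ3⟩ := exists_level t
  obtain ⟨S, hS⟩ : ∃ S, S = (Ioc n1 n2).filter (fun n => n % d = l % d ∧ ∀ p, p.Prime → p ≤ t → ¬ p ∣ n) :=
    ⟨_, rfl⟩
  have hSc : ∑ n ∈ Ioc n1 n2, ind d l t n = (#S : ℝ) := by
    unfold ind
    rw [hS, card_filter]
    push_cast
    rfl
  have h := H 1 b J (C * 2) d n1 n2 ((Pr t).filter (fun p => ¬ p ∣ d)) (fun _ => {0}) {l % d} S (by norm_num)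
    (by omega) (by omega) hd h12 (by
      intro r hr
      rw [mem_singleton] at hr
      rw [mem_range, hr]
      exact Nat.mod_lt _ hd) (fun p hp => by
      rw [mem_filter, mem_Pr] at hp
      exact ⟨hp.1.1, hp.1.2.trans hJ2, hp.2⟩) (fun p hp => by
      rw [mem_filter, mem_Pr] at hp
      intro r hr
      rw [mem_singleton] at hr
      rw [mem_range, hr]
      exact hp.1.1.pos) (fun p _ _ => by rw [card_singleton]) (fun n => by
      rw [hS, mem_filter, mem_Ioc]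
      constructor
      · rintro ⟨h1, h2, h3⟩
        refine ⟨h1, by rw [mem_singleton, h2], fun p hp => ?_⟩
        rw [mem_filter, mem_Pr] at hp
        rw [mem_singleton]
        intro h4
        exact h3 p hp.1.1 hp.1.2 (Nat.dvd_of_mod_eq_zero h4)
      · rintro ⟨h1, h2, h3⟩
        rw [mem_singleton] at h2
        refine ⟨h1, h2, fun p hp hpt hpn => ?_⟩
        by_cases hpd : p ∣ d
        · have h4 : n ≡ l [MOD p] := Nat.ModEq.of_dvd hpd h2
          have h5 : p ∣ l := (h4.dvd_iff (dvd_refl p)).1 hpn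
          have h6 := Nat.dvd_gcd h5 hpd
          rw [hld] at h6
          exact hp.one_lt.ne' (Nat.dvd_one.1 h6)
        · have h4 := h3 p (mem_filter.2 ⟨mem_Pr.2 ⟨hp, hpt⟩, hpd⟩)
          rw [mem_singleton] at h4
          exact h4 (Nat.mod_eq_zero_of_dvd hpn))
  rw [hSc]
  simp only [card_singleton, Nat.cast_one] at h
  have e1 : ((n2 : ℝ) - n1) * (1 / (d : ℝ)) * ∏ p ∈ (Pr t).filter (fun p => ¬ p ∣ d), (1 - 1 / (p : ℝ)) =
      ((n2 : ℝ) - n1) * rho d t := by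
    unfold rho
    ring
  rw [e1] at h
  refine h.trans ?_
  have e2 : (1 : ℝ) * ((C * 2 : ℕ) : ℝ) ^ (C * 2) * ((J : ℝ) + 2) * ((2 ^ 2 ^ J) ^ (C * b)) ^ 2 ≤
      (((C * 2) ^ (C * 2) : ℕ) : ℝ) * ((t : ℝ) + 2) ^ (4 * (C * 2 * b) + 2) := by
    have k1 : (2 : ℝ) ^ 2 ^ J ≤ ((t : ℝ) + 2) ^ 2 := by
      have k2 : ((2 ^ 2 ^ J : ℕ) : ℝ) ≤ (((max t 2) ^ 2 : ℕ) : ℝ) := by exact_mod_cast hJ3
      push_cast at k2
      refine k2.trans ?_
      apply pow_le_pow_left₀ (by positivity)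
      apply max_le
      · linarith
      · have : (0 : ℝ) ≤ t := Nat.cast_nonneg t
        linarith
    have k3 : (J : ℝ) + 2 ≤ (2 : ℝ) ^ 2 ^ J := by
      have k4 : J + 2 ≤ 2 ^ 2 ^ J := by
        have k5 : J + 1 ≤ 2 ^ J := Nat.lt_two_pow_self
        have k6 : 2 ^ J + 1 ≤ 2 ^ 2 ^ J := Nat.lt_two_pow_self
        omega
      exact_mod_cast k4
    have k7 : (J : ℝ) + 2 ≤ ((t : ℝ) + 2) ^ 2 := k3.trans k1
    have ht1 : (1 : ℝ) ≤ (t : ℝ) + 2 := by
      have : (0 : ℝ) ≤ t := Nat.cast_nonneg t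
      linarith
    calc (1 : ℝ) * ((C * 2 : ℕ) : ℝ) ^ (C * 2) * ((J : ℝ) + 2) * ((2 ^ 2 ^ J) ^ (C * b)) ^ 2
        ≤ 1 * ((C * 2 : ℕ) : ℝ) ^ (C * 2) * ((t : ℝ) + 2) ^ 2 * ((((t : ℝ) + 2) ^ 2) ^ (C * b)) ^ 2 := by
          gcongr
      _ = (((C * 2) ^ (C * 2) : ℕ) : ℝ) * ((t : ℝ) + 2) ^ (4 * (C * b) + 2) := by
          push_cast
          rw [one_mul, ← pow_mul, ← pow_mul, mul_assoc, ← pow_add]
          congr 2
          ring
      _ ≤ _ := by
          apply mul_le_mul_of_nonneg_left _ (Nat.cast_nonneg _)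
          apply pow_le_pow_right₀ ht1
          have : C * b ≤ C * 2 * b := Nat.mul_le_mul_right b (by omega)
          omega
  linarith

/-- partial summation -/
theorem abel (G x : ℕ → ℝ) (hG : Antitone G) (hG0 : ∀ j, 0 ≤ G j) (δ E₀ : ℝ) (K : ℕ)
    (h : ∀ k ≤ K, |∑ j ∈ range k, x j| ≤ δ * k + E₀) :
    |∑ j ∈ range K, G j * x j| ≤ δ * ∑ j ∈ range K, G j + E₀ * G 0 := by
  have ident : ∀ (y : ℕ → ℝ) (k : ℕ), ∑ j ∈ range k, G j * y j = G k * ∑ j ∈ range k, y j +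
      ∑ j ∈ range k, (G j - G (j + 1)) * ∑ i ∈ range (j + 1), y i := by
    intro y k
    induction k with
    | zero => simp
    | succ k ih =>
      rw [sum_range_succ, ih, sum_range_succ (fun j => (G j - G (j + 1)) * ∑ i ∈ range (j + 1), y i) k]
      rw [sum_range_succ y k]
      ring
  rw [ident x K]
  have h1 : |G K * ∑ j ∈ range K, x j| ≤ G K * (δ * K + E₀) := by
    rw [abs_mul, abs_of_nonneg (hG0 K)]
    exact mul_le_mul_of_nonneg_left (h K le_rfl) (hG0 K)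
  have h2 : |∑ j ∈ range K, (G j - G (j + 1)) * ∑ i ∈ range (j + 1), x i| ≤
      ∑ j ∈ range K, (G j - G (j + 1)) * (δ * ((j + 1 : ℕ) : ℝ) + E₀) := by
    refine (abs_sum_le_sum_abs _ _).trans (sum_le_sum fun j hj => ?_)
    rw [mem_range] at hj
    have h3 : 0 ≤ G j - G (j + 1) := sub_nonneg.2 (hG (Nat.le_succ j))
    rw [abs_mul, abs_of_nonneg h3]
    exact mul_le_mul_of_nonneg_left (h (j + 1) hj) h3
  have h3 := ident (fun _ => 1) K
  simp only [mul_one, sum_const, card_range, nsmul_eq_mul] at h3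
  have h4 : ∑ j ∈ range K, (G j - G (j + 1)) = G 0 - G K := by
    rw [Finset.sum_range_sub']
  have h5 : ∑ j ∈ range K, (G j - G (j + 1)) * (δ * ((j + 1 : ℕ) : ℝ) + E₀) =
      δ * ∑ j ∈ range K, (G j - G (j + 1)) * ((j + 1 : ℕ) : ℝ) + E₀ * (G 0 - G K) := by
    rw [← h4, mul_sum, mul_sum, ← sum_add_distrib]
    apply sum_congr rfl
    intro j _
    ring
  have h6 := (abs_add_le (G K * ∑ j ∈ range K, x j)
    (∑ j ∈ range K, (G j - G (j + 1)) * ∑ i ∈ range (j + 1), x i))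
  rw [h3]
  rw [h5] at h2
  nlinarith

/-- partial summation over an interval -/
theorem abel_Ioc (x : ℕ → ℝ) (A B : ℕ) (hA : 1 ≤ A) (hAB : A ≤ B) (δ E₀ : ℝ)
    (hE : 0 ≤ E₀) (h : ∀ B' , A ≤ B' → B' ≤ B → |∑ n ∈ Ioc A B', x n| ≤ δ * ((B' : ℝ) - A) + E₀) :
    |∑ n ∈ Ioc A B, x n / Real.log n| ≤ δ * ∑ n ∈ Ioc A B, 1 / Real.log n + 2 * E₀ := by
  have e : ∀ (f : ℕ → ℝ) (k : ℕ), ∑ n ∈ Ioc A (A + k), f n = ∑ j ∈ range k, f (A + 1 + j) := by
    intro f k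
    induction k with
    | zero => simp
    | succ k ih =>
      rw [sum_range_succ, ← ih, ← add_assoc, Finset.sum_Ioc_succ_top (by omega)]
      congr 2
      ring
  obtain ⟨k, rfl⟩ := Nat.exists_eq_add_of_le hAB
  have h1 := abel (fun j => 1 / Real.log ((A + 1 + j : ℕ) : ℝ)) (fun j => x (A + 1 + j)) (by
    intro i j hij
    have h2 : (1 : ℝ) < ((A + 1 + i : ℕ) : ℝ) := by exact_mod_cast (by omega : 1 < A + 1 + i)
    apply one_div_le_one_div_of_le (Real.log_pos h2)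
    apply Real.log_le_log (by linarith)
    exact_mod_cast (by omega : A + 1 + i ≤ A + 1 + j)) (fun j => by
    apply one_div_nonneg.2
    exact Real.log_natCast_nonneg _) δ E₀ k (fun k' hk' => by
    have h2 := h (A + k') (by omega) (by omega)
    rw [e] at h2
    have h3 : ((A + k' : ℕ) : ℝ) - A = k' := by push_cast; ring
    rw [h3] at h2
    exact h2)
  rw [e, e]
  have h2 : ∑ j ∈ range k, x (A + 1 + j) / Real.log ((A + 1 + j : ℕ) : ℝ) =
      ∑ j ∈ range k, 1 / Real.log ((A + 1 + j : ℕ) : ℝ) * x (A + 1 + j) := by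
    apply sum_congr rfl
    intro j _
    ring
  rw [h2]
  refine h1.trans ?_
  have h3 : 1 / Real.log ((A + 1 + 0 : ℕ) : ℝ) ≤ 2 := by
    have h4 : Real.log 2 ≤ Real.log ((A + 1 + 0 : ℕ) : ℝ) := by
      apply Real.log_le_log (by norm_num)
      exact_mod_cast (by omega : 2 ≤ A + 1 + 0)
    have h5 := Real.log_two_gt_d9
    rw [div_le_iff₀ (by linarith)]
    linarith
  nlinarith

end Pool.Agent.U839.Eh
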