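import Mathlib
import Pool.Agent.U839.Eh.Ap
import Pool.Agent.U839.Gb.Sum

set_option autoImplicit false

/-! # The mean over a residue class -/

open Finset Filter Topology

namespace Pool.Agent.U839.Eh

open Pool.Agent.U839.Sv (Pr mem_Pr W W_eq W_pos one_sub_pos exists_level fT fT_nonneg)
open Pool.Agent.U839.Gb (convex_Ioc)

theorem lvl : ∃ C K : ℕ, 1 ≤ K ∧ ∀ T : ℕ → ℕ, Monotone T → ∀ (b d l n1 n2 : ℕ), C ≤ b → 1 ≤ d →
    l.Coprime d → 1 ≤ n1 → n1 ≤ n2 →
    |∑ n ∈ (Ioc n1 n2).filter (fun n => n % d = l % d), fT T n / Real.log n -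
      ∑ n ∈ Ioc n1 n2, ph d (T n) / Real.log n| ≤
      (1 / 2) ^ b * ∑ n ∈ Ioc n1 n2, ph d (T n) / Real.log n + K * ((T n2 : ℝ) + 2) ^ (4 * (C * b) + 4) := by
  classical
  obtain ⟨C, K, hK, H⟩ := ap_cnt
  refine ⟨C, 2 * K, by omega, fun T hT b d l n1 n2 hb hd hld h1 h12 => ?_⟩
  obtain ⟨t, ht⟩ : ∃ t, t = T n2 := ⟨_, rfl⟩
  rw [← ht, sum_filter]
  have hmaps : ∀ n ∈ Ioc n1 n2, T n ∈ range (t + 1) := by
    intro n hn
    rw [mem_Ioc] at hn
    rw [mem_range, ht]
    have := hT hn.2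
    omega
  have key : ∀ i ∈ range (t + 1), |∑ n ∈ (Ioc n1 n2).filter (fun n => T n = i),
      (if n % d = l % d then fT T n / Real.log n else 0) -
      ∑ n ∈ (Ioc n1 n2).filter (fun n => T n = i), ph d (T n) / Real.log n| ≤
      (1 / 2) ^ b * ∑ n ∈ (Ioc n1 n2).filter (fun n => T n = i), ph d (T n) / Real.log n +
        2 * K * ((t : ℝ) + 2) ^ (4 * (C * b) + 3) := by
    intro i hi
    rw [mem_range] at hi
    obtain ⟨A, hA⟩ : ∃ A, A = (Ioc n1 n2).filter (fun n => T n = i) := ⟨_, rfl⟩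
    rw [← hA]
    have hAm : ∀ a, a ∈ A ↔ (n1 < a ∧ a ≤ n2) ∧ T a = i := by
      intro a
      rw [hA, mem_filter, mem_Ioc]
    rcases A.eq_empty_or_nonempty with h0 | hne
    · rw [h0]
      simp only [sum_empty, sub_zero, abs_zero, mul_zero, zero_add]
      positivity
    obtain ⟨m, M, hmM, hMA, hIoc⟩ := convex_Ioc A (by
      intro a ha c hc e hae hec
      rw [hAm] at ha hc ⊢
      have h3 : T a ≤ T e := hT hae
      have h4 : T e ≤ T c := hT hec
      omega) hne (fun a ha => by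
      rw [hAm] at ha
      omega)
    have hm1 : 1 ≤ m := by
      by_contra hcon
      push Not at hcon
      have h3 : m + 1 ∈ A := by
        have : A.Nonempty := hne
        rw [hIoc] at this ⊢
        obtain ⟨a, ha⟩ := this
        rw [mem_Ioc] at ha ⊢
        omega
      rw [hAm] at h3
      omega
    have e1 : ∑ n ∈ A, (if n % d = l % d then fT T n / Real.log n else 0) =
        W i * ∑ n ∈ Ioc m M, ind d l i n / Real.log n := by
      rw [← hIoc, mul_sum]
      apply sum_congr rfl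
      intro n hn
      rw [hAm] at hn
      unfold ind fT
      rw [hn.2]
      by_cases h3 : n % d = l % d
      · by_cases h4 : ∀ p, p.Prime → p ≤ i → ¬ p ∣ n
        · rw [if_pos h3, if_pos h4, if_pos ⟨h3, h4⟩]
          ring
        · rw [if_pos h3, if_neg h4, if_neg (fun h => h4 h.2)]
          ring
      · rw [if_neg h3, if_neg (fun h => h3 h.1)]
        ring
    have e2 : ∑ n ∈ A, ph d (T n) / Real.log n = W i * ∑ n ∈ Ioc m M, rho d i / Real.log n := by
      rw [← hIoc, mul_sum]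
      apply sum_congr rfl
      intro n hn
      rw [hAm] at hn
      rw [hn.2, ← W_rho]
      ring
    have e3 := abel_Ioc (fun n => ind d l i n - rho d i) m M hm1 hmM ((1 / 2) ^ b * rho d i)
      (K * ((i : ℝ) + 2) ^ (4 * (C * b) + 2)) (by positivity) (fun B' hB1 hB2 => by
        have h3 := H b i d l m B' hb hd hld hB1
        rw [sum_sub_distrib, sum_const, Nat.card_Ioc, nsmul_eq_mul, Nat.cast_sub hB1]
        refine h3.trans (le_of_eq ?_)
        ring)
    have e4 : ∑ n ∈ Ioc m M, (ind d l i n - rho d i) / Real.log n =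
        ∑ n ∈ Ioc m M, ind d l i n / Real.log n - ∑ n ∈ Ioc m M, rho d i / Real.log n := by
      rw [← sum_sub_distrib]
      apply sum_congr rfl
      intro n _
      ring
    rw [e4] at e3
    rw [e1, e2, ← mul_sub, abs_mul, abs_of_pos (W_pos i)]
    have hW := W_pos i
    have hWi : W i ≤ (t : ℝ) + 2 := by
      have h3 := Pool.Agent.U839.Sv.W_le' i
      have h4 : (i : ℝ) ≤ t := by exact_mod_cast (by omega : i ≤ t)
      linarith
    have hit : (i : ℝ) ≤ t := by exact_mod_cast (by omega : i ≤ t)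
    refine (mul_le_mul_of_nonneg_left e3 hW.le).trans ?_
    have e5 : W i * ((1 / 2) ^ b * rho d i * ∑ n ∈ Ioc m M, 1 / Real.log n) =
        (1 / 2) ^ b * (W i * ∑ n ∈ Ioc m M, rho d i / Real.log n) := by
      have : ∑ n ∈ Ioc m M, rho d i / Real.log n = rho d i * ∑ n ∈ Ioc m M, 1 / Real.log n := by
        rw [mul_sum]
        apply sum_congr rfl
        intro n _
        ring
      rw [this]
      ring
    rw [mul_add, e5]
    have e6 : W i * (2 * (K * ((i : ℝ) + 2) ^ (4 * (C * b) + 2))) ≤ 2 * K * ((t : ℝ) + 2) ^ (4 * (C * b) + 3) := by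
      calc W i * (2 * (K * ((i : ℝ) + 2) ^ (4 * (C * b) + 2))) ≤
          ((t : ℝ) + 2) * (2 * (K * ((t : ℝ) + 2) ^ (4 * (C * b) + 2))) := by gcongr
        _ = _ := by ring
    linarith
  have f1 := sum_fiberwise_of_maps_to hmaps (fun n => if n % d = l % d then fT T n / Real.log n else 0)
  have f2 := sum_fiberwise_of_maps_to hmaps (fun n => ph d (T n) / Real.log n)
  rw [← f1, ← f2, ← sum_sub_distrib]
  refine (abs_sum_le_sum_abs _ _).trans ((sum_le_sum key).trans ?_)
  rw [sum_add_distrib, ← mul_sum, sum_const, nsmul_eq_mul, card_range]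
  have h8 : (((t + 1 : ℕ) : ℝ)) ≤ (t : ℝ) + 2 := by
    push_cast
    linarith
  have h9 : ((t + 1 : ℕ) : ℝ) * (2 * K * ((t : ℝ) + 2) ^ (4 * (C * b) + 3)) ≤
      ((2 * K : ℕ) : ℝ) * ((t : ℝ) + 2) ^ (4 * (C * b) + 4) := by
    calc ((t + 1 : ℕ) : ℝ) * (2 * K * ((t : ℝ) + 2) ^ (4 * (C * b) + 3)) ≤
        ((t : ℝ) + 2) * (2 * K * ((t : ℝ) + 2) ^ (4 * (C * b) + 3)) := by gcongr
      _ = _ := by
        push_cast
        ring
  linarith

end Pool.Agent.U839.Eh
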