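import Mathlib
import Pool.Agent.U839.Eh.Ap

set_option autoImplicit false

/-! # The main terms -/

open Finset Filter Topology MeasureTheory

namespace Pool.Agent.U839.Eh

open Pool.Agent.U839.Sv (Pr mem_Pr W W_eq W_pos one_sub_pos exists_level fT fT_nonneg)

theorem one_sub_sum_le {ι : Type*} (s : Finset ι) (x : ι → ℝ) (h : ∀ i ∈ s, 0 ≤ x i ∧ x i ≤ 1) :
    1 - ∑ i ∈ s, x i ≤ ∏ i ∈ s, (1 - x i) := by
  classical
  induction s using Finset.induction_on with
  | empty => simp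
  | insert a s ha ih =>
    rw [sum_insert ha, prod_insert ha]
    have h1 := h a (mem_insert_self a s)
    have h2 := ih (fun i hi => h i (mem_insert_of_mem hi))
    have h3 : 0 ≤ ∑ i ∈ s, x i := sum_nonneg (fun i hi => (h i (mem_insert_of_mem hi)).1)
    have h4 : (1 - x a) * (1 - ∑ i ∈ s, x i) ≤ (1 - x a) * ∏ i ∈ s, (1 - x i) :=
      mul_le_mul_of_nonneg_left h2 (by linarith)
    nlinarith

theorem inv_tot (d : ℕ) (hd : 1 ≤ d) : 1 / (d.totient : ℝ) = 1 / (d : ℝ) * ∏ p ∈ d.primeFactors, (1 - 1 / (p : ℝ))⁻¹ := by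
  have h := Nat.totient_eq_mul_prod_factors d
  have h1 : (d.totient : ℝ) = (d : ℝ) * ∏ p ∈ d.primeFactors, (1 - 1 / (p : ℝ)) := by
    have h2 : ((d.totient : ℚ) : ℝ) = ((d * ∏ p ∈ d.primeFactors, (1 - (p : ℚ)⁻¹) : ℚ) : ℝ) := by
      rw [h]
    push_cast at h2
    rw [h2]
    simp only [one_div]
  rw [h1, one_div, mul_inv, ← Finset.prod_inv_distrib, one_div]

theorem filter_eq (d t : ℕ) (hd : 1 ≤ d) : (Pr t).filter (fun p => p ∣ d) = d.primeFactors.filter (fun p => p ≤ t) := by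
  ext p
  rw [mem_filter, mem_filter, mem_Pr, Nat.mem_primeFactors]
  constructor
  · rintro ⟨⟨h1, h2⟩, h3⟩
    exact ⟨⟨h1, h3, by omega⟩, h2⟩
  · rintro ⟨⟨h1, h2, -⟩, h3⟩
    exact ⟨⟨h1, h3⟩, h2⟩

/-- the relation between `ph` and `φ` -/
theorem ph_split (d t : ℕ) (hd : 1 ≤ d) : ph d t = 1 / (d.totient : ℝ) *
    ∏ p ∈ d.primeFactors.filter (fun p => ¬ p ≤ t), (1 - 1 / (p : ℝ)) := by
  unfold ph
  rw [filter_eq d t hd, inv_tot d hd, ← prod_filter_mul_prod_filter_not d.primeFactors (fun p => p ≤ t)]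
  have h : (∏ p ∈ d.primeFactors.filter (fun p => ¬ p ≤ t), (1 - 1 / (p : ℝ))⁻¹) *
      ∏ p ∈ d.primeFactors.filter (fun p => ¬ p ≤ t), (1 - 1 / (p : ℝ)) = 1 := by
    rw [← prod_mul_distrib]
    apply prod_eq_one
    intro p hp
    rw [mem_filter, Nat.mem_primeFactors] at hp
    exact inv_mul_cancel₀ (one_sub_pos hp.1.1).ne'
  rw [mul_assoc, mul_assoc, h, mul_one]

theorem ph_le (d t : ℕ) (hd : 1 ≤ d) : ph d t ≤ 1 / (d.totient : ℝ) := by
  rw [ph_split d t hd]
  have h : ∏ p ∈ d.primeFactors.filter (fun p => ¬ p ≤ t), (1 - 1 / (p : ℝ)) ≤ 1 := by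
    apply Finset.prod_le_one
    · intro p hp
      rw [mem_filter, Nat.mem_primeFactors] at hp
      exact (one_sub_pos hp.1.1).le
    · intro p _
      exact Pool.Agent.U839.Sv.one_sub_le
  have h2 : 0 ≤ 1 / (d.totient : ℝ) := by positivity
  nlinarith

theorem card_pf (d : ℕ) (hd : 1 ≤ d) (S : Finset ℕ) (hS : S ⊆ d.primeFactors) :
    (S.card : ℝ) ≤ Real.log d / Real.log 2 := by
  rw [le_div_iff₀ (Real.log_pos (by norm_num))]
  have h7 : 2 ^ S.card ≤ d := by
    calc 2 ^ S.card ≤ 2 ^ d.primeFactors.card := Nat.pow_le_pow_right (by norm_num) (card_le_card hS)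
      _ ≤ ∏ p ∈ d.primeFactors, p := by
          apply Finset.pow_card_le_prod
          intro p hp
          exact (Nat.prime_of_mem_primeFactors hp).two_le
      _ ≤ d := Nat.le_of_dvd (by omega) (Nat.prod_primeFactors_dvd d)
  have h8 : (2 : ℝ) ^ S.card ≤ d := by exact_mod_cast h7
  have h9 := Real.log_le_log (by positivity) h8
  rwa [Real.log_pow] at h9

theorem ph_ge (d t : ℕ) (hd : 1 ≤ d) (ht : 1 ≤ t) :
    1 / (d.totient : ℝ) * (1 - Real.log d / Real.log 2 / t) ≤ ph d t := by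
  rw [ph_split d t hd]
  apply mul_le_mul_of_nonneg_left _ (by positivity)
  have ht0 : (0 : ℝ) < t := by exact_mod_cast ht
  have h1 := one_sub_sum_le (d.primeFactors.filter (fun p => ¬ p ≤ t)) (fun p => 1 / (p : ℝ)) (fun p hp => by
    rw [mem_filter, Nat.mem_primeFactors] at hp
    have h2 : (1 : ℝ) ≤ p := by exact_mod_cast hp.1.1.one_lt.le
    exact ⟨by positivity, by rw [div_le_one (by linarith)]; exact h2⟩)
  refine le_trans ?_ h1
  have h2 : ∑ p ∈ d.primeFactors.filter (fun p => ¬ p ≤ t), 1 / (p : ℝ) ≤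
      ∑ p ∈ d.primeFactors.filter (fun p => ¬ p ≤ t), 1 / (t : ℝ) := by
    apply sum_le_sum
    intro p hp
    rw [mem_filter] at hp
    apply one_div_le_one_div_of_le ht0
    exact_mod_cast (by omega : t ≤ p)
  rw [sum_const, nsmul_eq_mul] at h2
  have h3 := card_pf d hd (d.primeFactors.filter (fun p => ¬ p ≤ t)) (filter_subset _ _)
  have h4 : ((d.primeFactors.filter (fun p => ¬ p ≤ t)).card : ℝ) * (1 / (t : ℝ)) ≤
      Real.log d / Real.log 2 * (1 / (t : ℝ)) := by gcongr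
  have h5 : Real.log d / Real.log 2 * (1 / (t : ℝ)) = Real.log d / Real.log 2 / t := by ring
  linarith

theorem ph_prime (d t : ℕ) (hd : d.Prime) (h : t < d) : ph d t = 1 / d := by
  unfold ph
  have : (Pr t).filter (fun p => p ∣ d) = ∅ := by
    apply eq_empty_of_forall_notMem
    intro p hp
    rw [mem_filter, mem_Pr] at hp
    have h1 := (Nat.prime_dvd_prime_iff_eq hp.1.1 hd).1 hp.2
    omega
  rw [this, prod_empty, mul_one]

theorem ph_lower (d t : ℕ) : 1 / (d : ℝ) ≤ ph d t := by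
  unfold ph
  have h1 : 1 ≤ ∏ p ∈ (Pr t).filter (fun p => p ∣ d), (1 - 1 / (p : ℝ))⁻¹ := by
    have h2 := Finset.prod_le_prod (s := (Pr t).filter (fun p => p ∣ d)) (f := fun _ => (1 : ℝ))
      (g := fun p : ℕ => (1 - 1 / (p : ℝ))⁻¹) (fun _ _ => zero_le_one)
      (fun p hp => by
        rw [mem_filter, mem_Pr] at hp
        exact one_le_inv_iff₀.2 ⟨one_sub_pos hp.1.1, Pool.Agent.U839.Sv.one_sub_le⟩)
    simpa using h2
  have h2 : 0 ≤ 1 / (d : ℝ) := by positivity
  nlinarith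

/-- elements of a residue class -/
theorem card_class (N d l : ℕ) (hd : 1 ≤ d) :
    (((Icc 1 N).filter (fun n => n % d = l % d)).card : ℝ) ≤ (N : ℝ) / d + 2 := by
  have h1 : (Icc 1 N).filter (fun n => n % d = l % d) ⊆ (range (N + 1)).filter (fun n => n ≡ l [MOD d]) := by
    intro n hn
    rw [mem_filter, mem_Icc] at hn
    rw [mem_filter, mem_range]
    exact ⟨by omega, hn.2⟩
  have h2 := card_le_card h1
  rw [← Nat.count_eq_card_filter_range, Nat.count_modEq_card _ (by omega)] at h2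
  have h3 : ((Icc 1 N).filter (fun n => n % d = l % d)).card ≤ N / d + 2 := by
    refine h2.trans ?_
    have h4 : (N + 1) / d ≤ N / d + 1 := by
      have : (N + 1) / d ≤ (N + d) / d := Nat.div_le_div_right (by omega)
      rwa [Nat.add_div_right _ (by omega)] at this
    split_ifs
    · rcases Nat.lt_or_ge ((N + 1) / d) (N / d + 1) with h5 | h5
      · omega
      · omega
    · omega
  have h4 : ((N / d : ℕ) : ℝ) ≤ (N : ℝ) / d := Nat.cast_div_le
  have h5 : (((Icc 1 N).filter (fun n => n % d = l % d)).card : ℝ) ≤ ((N / d + 2 : ℕ) : ℝ) := by exact_mod_cast h3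
  push_cast at h5
  linarith

/-- the logarithmic integral -/
noncomputable def li (x : ℝ) : ℝ := ∫ t in (2 : ℝ)..x, 1 / Real.log t

theorem anti (b : ℝ) : AntitoneOn (fun t : ℝ => 1 / Real.log t) (Set.Icc 2 b) := by
  intro x hx y hy hxy
  apply one_div_le_one_div_of_le
  · apply Real.log_pos
    linarith [hx.1]
  · exact Real.log_le_log (by linarith [hx.1]) hxy

theorem int_log (a b : ℝ) (ha : 2 ≤ a) (hab : a ≤ b) : IntervalIntegrable (fun t : ℝ => 1 / Real.log t) volume a b := by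
  apply AntitoneOn.intervalIntegrable
  rw [Set.uIcc_of_le hab]
  exact (anti b).mono (Set.Icc_subset_Icc_left ha)

theorem li_sum (x : ℝ) (n1 : ℕ) (h2 : 2 ≤ n1) (hx : (n1 : ℝ) ≤ x) :
    |li x - ∑ n ∈ Ioc n1 ⌊x⌋₊, 1 / Real.log n| ≤ n1 + 4 := by
  obtain ⟨N, hN⟩ : ∃ N, N = ⌊x⌋₊ := ⟨_, rfl⟩
  rw [← hN]
  have hx2 : (2 : ℝ) ≤ x := by
    have : (2 : ℝ) ≤ n1 := by exact_mod_cast h2
    linarith
  have hN1 : n1 ≤ N := by
    rw [hN]
    exact Nat.le_floor hx
  have hNx : (N : ℝ) ≤ x := by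
    rw [hN]
    exact Nat.floor_le (by linarith)
  have hxN : x < N + 1 := by
    rw [hN]
    exact Nat.lt_floor_add_one x
  have hl2 : 0 < Real.log 2 := Real.log_pos (by norm_num)
  have hl2' := Real.log_two_gt_d9
  have hi : 1 / Real.log 2 ≤ 2 := by
    rw [div_le_iff₀ hl2]
    linarith
  obtain ⟨a, ha⟩ := Nat.exists_eq_add_of_le (h2.trans hN1)
  have haN : (N : ℝ) = 2 + a := by
    rw [ha]
    push_cast
    ring
  have e1 := AntitoneOn.sum_le_integral (x₀ := 2) (a := a) (anti (2 + a))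
  have e2 := AntitoneOn.integral_le_sum (x₀ := 2) (a := a) (anti (2 + a))
  rw [← haN] at e1 e2
  have e : ∀ k : ℕ, ∑ n ∈ Ioc 2 (2 + k), 1 / Real.log (n : ℝ) =
      ∑ i ∈ range k, 1 / Real.log (2 + ((i + 1 : ℕ) : ℝ)) := by
    intro k
    induction k with
    | zero => simp
    | succ k ih =>
      rw [sum_range_succ, ← ih, ← add_assoc, Finset.sum_Ioc_succ_top (by omega)]
      congr 3
      push_cast
      ring
  have e3 : ∑ i ∈ range a, 1 / Real.log (2 + (i : ℝ)) ≤ 2 + ∑ i ∈ range a, 1 / Real.log (2 + ((i + 1 : ℕ) : ℝ)) := by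
    rcases Nat.eq_zero_or_pos a with h0 | h0
    · rw [h0]
      simp
    · obtain ⟨k, rfl⟩ : ∃ k, a = k + 1 := ⟨a - 1, by omega⟩
      rw [sum_range_succ', sum_range_succ (fun i : ℕ => 1 / Real.log (2 + ((i + 1 : ℕ) : ℝ)))]
      have h3 : 1 / Real.log (2 + ((0 : ℕ) : ℝ)) ≤ 2 := by
        rw [Nat.cast_zero, add_zero]
        exact hi
      have h4 : 0 ≤ 1 / Real.log (2 + ((k + 1 : ℕ) : ℝ)) := by
        apply one_div_nonneg.2
        apply Real.log_nonneg
        have : (0 : ℝ) ≤ ((k + 1 : ℕ) : ℝ) := Nat.cast_nonneg _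
        linarith
      linarith
  rw [← e a, ← ha] at e1 e3
  have e4 : ∑ n ∈ Ioc 2 N, 1 / Real.log (n : ℝ) = ∑ n ∈ Ioc 2 n1, 1 / Real.log (n : ℝ) +
      ∑ n ∈ Ioc n1 N, 1 / Real.log (n : ℝ) := by
    rw [Finset.sum_Ioc_consecutive _ h2 hN1]
  have e5 : 0 ≤ ∑ n ∈ Ioc 2 n1, 1 / Real.log (n : ℝ) :=
    sum_nonneg (fun n _ => one_div_nonneg.2 (Real.log_natCast_nonneg n))
  have e6 : ∑ n ∈ Ioc 2 n1, 1 / Real.log (n : ℝ) ≤ n1 := by
    have h3 : ∀ n ∈ Ioc 2 n1, 1 / Real.log (n : ℝ) ≤ 1 := by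
      intro n hn
      rw [mem_Ioc] at hn
      have h4 : (3 : ℝ) ≤ n := by exact_mod_cast hn.1
      have h5 : 1 ≤ Real.log n := by
        rw [Real.le_log_iff_exp_le (by linarith)]
        have := Real.exp_one_lt_d9
        linarith
      rw [div_le_one (by linarith)]
      exact h5
    have h4 := Finset.sum_le_card_nsmul _ _ _ h3
    rw [Nat.card_Ioc, nsmul_eq_mul, mul_one] at h4
    refine h4.trans ?_
    exact_mod_cast Nat.sub_le _ _
  have e7 : li x = (∫ t in (2 : ℝ)..N, 1 / Real.log t) + ∫ t in (N : ℝ)..x, 1 / Real.log t := by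
    unfold li
    rw [intervalIntegral.integral_add_adjacent_intervals]
    · exact int_log 2 N le_rfl (by rw [haN]; have : (0 : ℝ) ≤ a := Nat.cast_nonneg a; linarith)
    · exact int_log N x (by rw [haN]; have : (0 : ℝ) ≤ a := Nat.cast_nonneg a; linarith) hNx
  have e8 : |∫ t in (N : ℝ)..x, 1 / Real.log t| ≤ 2 := by
    have hN2 : (2 : ℝ) ≤ N := by
      rw [haN]
      have : (0 : ℝ) ≤ a := Nat.cast_nonneg a
      linarith
    have h3 := intervalIntegral.norm_integral_le_of_norm_le_const (a := (N : ℝ)) (b := x)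
      (f := fun t => 1 / Real.log t) (C := 2) (fun t ht => by
        rw [Set.uIoc_of_le hNx] at ht
        have h4 : Real.log 2 ≤ Real.log t := Real.log_le_log (by norm_num) (by linarith [ht.1])
        rw [Real.norm_of_nonneg (one_div_nonneg.2 (by linarith))]
        refine le_trans ?_ hi
        exact one_div_le_one_div_of_le hl2 h4)
    rw [Real.norm_eq_abs] at h3
    refine h3.trans ?_
    rw [abs_of_nonneg (by linarith)]
    linarith
  have e9 := abs_le.1 e8
  rw [e7, abs_le]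
  constructor <;> linarith [e9.1, e9.2]

end Pool.Agent.U839.Eh
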