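import Mathlib
import Pool.Agent.U839.Eh.Lvl
import Pool.Agent.U839.Eh.Phi
import Pool.Agent.U839.Gb.Chern
import Pool.Agent.U839.Fb.Sum

set_option autoImplicit false

/-! # The number of elements of residue classes in the sieve model -/

open MeasureTheory ProbabilityTheory Filter Finset Topology

namespace Pool.Agent.U839.Eh

open Pool.Agent.U839.Sv (Pr mem_Pr W W_eq W_pos one_sub_pos fT fT_nonneg Sieved law')
open Pool.Agent.U839.Thin (tlog)
open Pool.Agent.U839.Fb (tloglog)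
open Pool.Agent.U839.Gb (SS SS_eq chern_up chern_low)

variable {Ω : Type*} [MeasurableSpace Ω] {μ : Measure Ω} [IsProbabilityMeasure μ]

/-- the upper bound for the sieve -/
def Sub (T : ℕ → ℕ) : Prop := ∀ ε : ℝ, 0 < ε → ∀ᶠ n : ℕ in atTop,
  (T n : ℝ) ≤ (n : ℝ) ^ (ε / Real.log (Real.log n))

theorem Sub.pow {T : ℕ → ℕ} (h : Sub T) : ∀ ε : ℝ, 0 < ε → ∀ᶠ n : ℕ in atTop, (T n : ℝ) ≤ (n : ℝ) ^ ε := by
  intro ε hε
  filter_upwards [h ε hε, tloglog.eventually_ge_atTop 1, eventually_ge_atTop 1] with n g1 g2 g3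
  refine g1.trans ?_
  apply Real.rpow_le_rpow_of_exponent_le (by exact_mod_cast g3)
  rw [div_le_iff₀ (by linarith)]
  nlinarith

/-- the level of the sieve weights -/
noncomputable def bb (A : ℕ) (N : ℕ) : ℕ := ⌈(A : ℝ) * Real.log (Real.log N) / Real.log 2⌉₊

theorem bb_small (A : ℕ) : ∀ᶠ N : ℕ in atTop, (1 / 2 : ℝ) ^ bb A N ≤ 1 / (Real.log N) ^ A := by
  filter_upwards [tlog.eventually_gt_atTop 0] with N h0
  have hl2 : 0 < Real.log 2 := Real.log_pos (by norm_num)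
  have h1 : (A : ℝ) * Real.log (Real.log N) / Real.log 2 ≤ bb A N := Nat.le_ceil _
  rw [div_le_iff₀ hl2] at h1
  rw [one_div, inv_pow, one_div]
  apply inv_anti₀ (by positivity)
  have e1 : (Real.log N) ^ A = Real.exp (A * Real.log (Real.log N)) := by
    rw [Real.exp_nat_mul, Real.exp_log h0]
  have e2 : (2 : ℝ) ^ bb A N = Real.exp (bb A N * Real.log 2) := by
    rw [Real.exp_nat_mul, Real.exp_log (by norm_num)]
  rw [e1, e2]
  exact Real.exp_le_exp.2 h1

theorem bb_ge (A C : ℕ) (hA : 1 ≤ A) : ∀ᶠ N : ℕ in atTop, C ≤ bb A N := by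
  filter_upwards [tloglog.eventually_ge_atTop (C : ℝ)] with N h0
  have hl2 : 0 < Real.log 2 := Real.log_pos (by norm_num)
  have hl2' := Real.log_two_lt_d9
  have h1 : (A : ℝ) * Real.log (Real.log N) / Real.log 2 ≤ bb A N := Nat.le_ceil _
  have hA1 : (1 : ℝ) ≤ A := by exact_mod_cast hA
  have hC : (0 : ℝ) ≤ C := Nat.cast_nonneg C
  have h2 : (C : ℝ) ≤ (A : ℝ) * Real.log (Real.log N) / Real.log 2 := by
    rw [le_div_iff₀ hl2]
    nlinarith
  exact_mod_cast h2.trans h1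

theorem small_err {T : ℕ → ℕ} (hT : Sub T) (A C K : ℕ) (hA : 1 ≤ A) (η : ℝ) (hη : 0 < η) :
    ∀ᶠ N : ℕ in atTop, (K : ℝ) * ((T N : ℝ) + 2) ^ (4 * (C * bb A N) + 4) ≤ (N : ℝ) ^ η := by
  obtain ⟨B, hB⟩ : ∃ B : ℝ, B = 8 * C * A + 4 := ⟨_, rfl⟩
  have hB0 : 0 < B := by rw [hB]; positivity
  obtain ⟨ε, hε⟩ : ∃ ε : ℝ, ε = η / (4 * B) := ⟨_, rfl⟩
  have hε0 : 0 < ε := by rw [hε]; positivity
  have hratio : ∀ᶠ N : ℕ in atTop, Real.log 3 ≤ ε * Real.log N / Real.log (Real.log N) := by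
    have h1 : Tendsto (fun x : ℝ => x / Real.log x) atTop atTop := by
      have h3 := (Real.tendsto_exp_div_pow_atTop 1)
      have h4 : Tendsto (fun x : ℝ => Real.exp (Real.log x) / (Real.log x) ^ 1) atTop atTop :=
        h3.comp Real.tendsto_log_atTop
      refine h4.congr' ?_
      filter_upwards [eventually_gt_atTop 0] with x hx
      rw [Real.exp_log hx, pow_one]
    filter_upwards [(h1.comp tlog).eventually_ge_atTop (Real.log 3 / ε)] with N g1
    simp only [Function.comp] at g1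
    rw [div_le_iff₀ hε0] at g1
    calc Real.log 3 ≤ Real.log N / Real.log (Real.log N) * ε := g1
      _ = _ := by ring
  have hK : ∀ᶠ N : ℕ in atTop, (K : ℝ) ≤ (N : ℝ) ^ (η / 2) :=
    ((tendsto_rpow_atTop (by positivity)).comp tendsto_natCast_atTop_atTop).eventually_ge_atTop _
  filter_upwards [hT ε hε0, hratio, hK, tloglog.eventually_ge_atTop 4, tlog.eventually_ge_atTop 1,
    eventually_ge_atTop 1] with N g1 g2 g3 g4 g5 g6
  have hN1 : (1 : ℝ) ≤ N := by exact_mod_cast g6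
  have hN0 : (0 : ℝ) < N := by linarith
  obtain ⟨ℓ, hℓ⟩ : ∃ ℓ, ℓ = Real.log (Real.log N) := ⟨_, rfl⟩
  rw [← hℓ] at g1 g2 g4
  have hℓ0 : 0 < ℓ := by linarith
  have hl2 : 0 < Real.log 2 := Real.log_pos (by norm_num)
  have hl2' := Real.log_two_gt_d9
  have hA1 : (1 : ℝ) ≤ A := by exact_mod_cast hA
  have hb : (bb A N : ℝ) ≤ 2 * A * ℓ := by
    have h1 : (bb A N : ℝ) < (A : ℝ) * ℓ / Real.log 2 + 1 := by
      rw [hℓ]
      apply Nat.ceil_lt_add_one
      rw [← hℓ]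
      positivity
    have h2 : (A : ℝ) * ℓ / Real.log 2 ≤ 3 / 2 * (A * ℓ) := by
      rw [div_le_iff₀ hl2]
      have : 0 ≤ (A : ℝ) * ℓ := by positivity
      nlinarith
    nlinarith
  have hlog : Real.log ((T N : ℝ) + 2) ≤ 2 * (ε * Real.log N / ℓ) := by
    have h1 : (1 : ℝ) ≤ (N : ℝ) ^ (ε / ℓ) := Real.one_le_rpow hN1 (by positivity)
    have h2 : (T N : ℝ) + 2 ≤ 3 * (N : ℝ) ^ (ε / ℓ) := by linarith
    have h3 : (0 : ℝ) ≤ T N := Nat.cast_nonneg _
    have h4 := Real.log_le_log (by linarith) h2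
    rw [Real.log_mul (by norm_num) (by positivity), Real.log_rpow hN0] at h4
    have h5 : ε / ℓ * Real.log N = ε * Real.log N / ℓ := by ring
    rw [h5] at h4
    linarith
  have hT0 : (0 : ℝ) ≤ T N := Nat.cast_nonneg _
  have hpw : ((T N : ℝ) + 2) ^ (4 * (C * bb A N) + 4) ≤ (N : ℝ) ^ (η / 2) := by
    have h1 : ((T N : ℝ) + 2) ^ (4 * (C * bb A N) + 4) =
        Real.exp (((4 * (C * bb A N) + 4 : ℕ) : ℝ) * Real.log ((T N : ℝ) + 2)) := by
      rw [Real.exp_nat_mul, Real.exp_log (by linarith)]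
    rw [h1, Real.rpow_def_of_pos hN0]
    apply Real.exp_le_exp.2
    have h2 : ((4 * (C * bb A N) + 4 : ℕ) : ℝ) ≤ B * ℓ := by
      push_cast
      rw [hB]
      have hC : (0 : ℝ) ≤ C := Nat.cast_nonneg C
      have : (C : ℝ) * bb A N ≤ C * (2 * A * ℓ) := by gcongr
      nlinarith
    calc ((4 * (C * bb A N) + 4 : ℕ) : ℝ) * Real.log ((T N : ℝ) + 2) ≤ (B * ℓ) * (2 * (ε * Real.log N / ℓ)) := by
          apply mul_le_mul h2 hlog (Real.log_nonneg (by linarith)) (by positivity)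
      _ = 2 * B * ε * Real.log N := by field_simp
      _ = Real.log N * (η / 2) := by
          rw [hε]
          field_simp
          ring
  calc (K : ℝ) * ((T N : ℝ) + 2) ^ (4 * (C * bb A N) + 4) ≤ (N : ℝ) ^ (η / 2) * (N : ℝ) ^ (η / 2) := by gcongr
    _ = (N : ℝ) ^ η := by
        rw [← Real.rpow_add hN0]
        congr 1
        ring

/-- the expected number of elements of a residue class -/
noncomputable def Mn (μ : Measure Ω) (E : ℕ → Set Ω) (N d l : ℕ) : ℝ :=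
  ∑ n ∈ (Icc 1 N).filter (fun n => n % d = l % d), μ.real (E n)

/-- the main term -/
noncomputable def MT (T : ℕ → ℕ) (N d : ℕ) : ℝ := ∑ n ∈ Ioc (Nat.sqrt N) N, ph d (T n) / Real.log n

theorem MT_nonneg (T : ℕ → ℕ) (N d : ℕ) : 0 ≤ MT T N d :=
  sum_nonneg (fun n _ => div_nonneg (ph_nonneg _ _) (Real.log_natCast_nonneg n))

theorem MT_le (T : ℕ → ℕ) (N d : ℕ) (hd : 1 ≤ d) (hN : 9 ≤ N) : MT T N d ≤ 1 / (d.totient : ℝ) * N := by
  unfold MT
  have hs : 3 ≤ Nat.sqrt N := by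
    rw [Nat.le_sqrt]
    omega
  have h1 : ∀ n ∈ Ioc (Nat.sqrt N) N, ph d (T n) / Real.log n ≤ 1 / (d.totient : ℝ) := by
    intro n hn
    rw [mem_Ioc] at hn
    have h4 : (3 : ℝ) ≤ n := by exact_mod_cast (by omega : 3 ≤ n)
    have h5 : 1 ≤ Real.log n := by
      rw [Real.le_log_iff_exp_le (by linarith)]
      have := Real.exp_one_lt_d9
      linarith
    exact (div_le_self (ph_nonneg _ _) h5).trans (ph_le d _ hd)
  have h2 := Finset.sum_le_card_nsmul _ _ _ h1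
  rw [Nat.card_Ioc, nsmul_eq_mul] at h2
  refine h2.trans ?_
  rw [mul_comm]
  apply mul_le_mul_of_nonneg_left _ (by positivity)
  exact_mod_cast Nat.sub_le _ _

theorem MT_ge (T : ℕ → ℕ) (N d : ℕ) (hd : 1 ≤ d) (hN : 9 ≤ N) : (N : ℝ) / (2 * d * Real.log N) ≤ MT T N d := by
  unfold MT
  have hs : 3 ≤ Nat.sqrt N := by
    rw [Nat.le_sqrt]
    omega
  have hN1 : (1 : ℝ) < N := by exact_mod_cast (by omega : 1 < N)
  have hL : 0 < Real.log N := Real.log_pos hN1
  have hd0 : (0 : ℝ) < d := by exact_mod_cast hd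
  have h1 : ∀ n ∈ Ioc (Nat.sqrt N) N, 1 / (d * Real.log N) ≤ ph d (T n) / Real.log n := by
    intro n hn
    rw [mem_Ioc] at hn
    have h4 : (3 : ℝ) ≤ n := by exact_mod_cast (by omega : 3 ≤ n)
    have h5 : 0 < Real.log n := Real.log_pos (by linarith)
    have h6 : Real.log n ≤ Real.log N := Real.log_le_log (by linarith) (by exact_mod_cast hn.2)
    have h7 := ph_lower d (T n)
    calc 1 / (d * Real.log N) = 1 / (d : ℝ) / Real.log N := by rw [div_div]
      _ ≤ 1 / (d : ℝ) / Real.log n := div_le_div_of_nonneg_left (by positivity) h5 h6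
      _ ≤ ph d (T n) / Real.log n := div_le_div_of_nonneg_right h7 h5.le
  have h2 := Finset.card_nsmul_le_sum _ _ _ h1
  rw [Nat.card_Ioc, nsmul_eq_mul, Nat.cast_sub (Nat.sqrt_le_self N)] at h2
  refine le_trans ?_ h2
  have h3 : (Nat.sqrt N : ℝ) ≤ N / 2 := by
    have h4 : Nat.sqrt N * Nat.sqrt N ≤ N := Nat.sqrt_le N
    have h5 : ((Nat.sqrt N : ℝ)) * Nat.sqrt N ≤ N := by exact_mod_cast h4
    have h6 : (3 : ℝ) ≤ Nat.sqrt N := by exact_mod_cast hs
    nlinarith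
  calc (N : ℝ) / (2 * d * Real.log N) = N / 2 * (1 / (d * Real.log N)) := by field_simp
    _ ≤ ((N : ℝ) - Nat.sqrt N) * (1 / (d * Real.log N)) := by
        apply mul_le_mul_of_nonneg_right _ (by positivity)
        linarith

/-- the expectation -/
theorem mean {T : ℕ → ℕ} (hTm : Monotone T) (hT : Sub T) {E : ℕ → Set Ω} (hE : Sieved μ E T) (A : ℕ) (hA : 1 ≤ A)
    (η : ℝ) (hη : 0 < η) : ∀ᶠ N : ℕ in atTop, ∀ d l : ℕ, 1 ≤ d → l.Coprime d →
      (1 - 1 / (Real.log N) ^ A) * MT T N d - (N : ℝ) ^ η ≤ Mn μ E N d l ∧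
      Mn μ E N d l ≤ (1 + 1 / (Real.log N) ^ A) * MT T N d + (N : ℝ) ^ η + ((Nat.sqrt N : ℝ) / d + 2) := by
  obtain ⟨C, K, hK, H⟩ := lvl
  obtain ⟨a₀, ha₀⟩ := eventually_atTop.1 (law' hE hT.pow)
  filter_upwards [bb_small A, bb_ge A C hA, small_err hT A C K hA η hη, eventually_ge_atTop ((a₀ + 1) ^ 2)]
    with N g1 g2 g3 g4 d l hd hld
  obtain ⟨q, hq⟩ : ∃ q, q = Nat.sqrt N := ⟨_, rfl⟩
  have hqa : a₀ + 1 ≤ q := by
    rw [hq, Nat.le_sqrt']
    exact g4
  have hqN : q ≤ N := by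
    rw [hq]
    exact Nat.sqrt_le_self N
  have h1 := H T hTm (bb A N) d l q N g2 hd hld (by omega) hqN
  have h0 : ∑ n ∈ Ioc q N, ph d (T n) / Real.log n = MT T N d := by
    unfold MT
    rw [hq]
  rw [h0] at h1
  have hM0 := MT_nonneg T N d
  have h2 : ∑ n ∈ (Ioc q N).filter (fun n => n % d = l % d), fT T n / Real.log n =
      ∑ n ∈ (Ioc q N).filter (fun n => n % d = l % d), μ.real (E n) := by
    apply sum_congr rfl
    intro n hn
    rw [mem_filter, mem_Ioc] at hn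
    rw [ha₀ n (by omega)]
  rw [h2] at h1
  have h3 : (1 / 2 : ℝ) ^ bb A N * MT T N d ≤ 1 / (Real.log N) ^ A * MT T N d :=
    mul_le_mul_of_nonneg_right g1 hM0
  have h4 : Mn μ E N d l = ∑ n ∈ (Icc 1 q).filter (fun n => n % d = l % d), μ.real (E n) +
      ∑ n ∈ (Ioc q N).filter (fun n => n % d = l % d), μ.real (E n) := by
    unfold Mn
    rw [← sum_union]
    · apply sum_congr _ (fun _ _ => rfl)
      ext n
      rw [mem_union, mem_filter, mem_filter, mem_filter, mem_Icc, mem_Icc, mem_Ioc]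
      constructor
      · rintro ⟨h5, h6⟩
        rcases Nat.lt_or_ge q n with h7 | h7
        · right
          exact ⟨⟨h7, h5.2⟩, h6⟩
        · left
          exact ⟨⟨h5.1, h7⟩, h6⟩
      · rintro (⟨h5, h6⟩ | ⟨h5, h6⟩)
        · exact ⟨⟨h5.1, by omega⟩, h6⟩
        · exact ⟨⟨by omega, h5.2⟩, h6⟩
    · rw [Finset.disjoint_left]
      intro n hn hn'
      rw [mem_filter, mem_Icc] at hn
      rw [mem_filter, mem_Ioc] at hn'
      omega
  have h5 : 0 ≤ ∑ n ∈ (Icc 1 q).filter (fun n => n % d = l % d), μ.real (E n) :=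
    sum_nonneg (fun _ _ => measureReal_nonneg)
  have h6 : ∑ n ∈ (Icc 1 q).filter (fun n => n % d = l % d), μ.real (E n) ≤ (q : ℝ) / d + 2 := by
    have h7 := Finset.sum_le_card_nsmul ((Icc 1 q).filter (fun n => n % d = l % d)) (fun n => μ.real (E n)) 1
      (fun n _ => measureReal_le_one)
    rw [nsmul_eq_mul, mul_one] at h7
    exact h7.trans (card_class q d l hd)
  rw [hq] at h6
  have h7 := abs_le.1 h1
  rw [h4, ← hq]
  rw [← hq] at h6
  constructor
  · linarith [h7.1]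
  · linarith [h7.2]

end Pool.Agent.U839.Eh
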