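import Mathlib
import Pool.Agent.U839.Eh.Mast

set_option autoImplicit false

/-! # Concentration in residue classes -/

open MeasureTheory ProbabilityTheory Filter Finset Topology

namespace Pool.Agent.U839.Eh

open Pool.Agent.U839.Sv (Pr mem_Pr W W_eq W_pos one_sub_pos fT fT_nonneg Sieved law')
open Pool.Agent.U839.Thin (tlog)
open Pool.Agent.U839.Fb (tloglog)
open Pool.Agent.U839.Gb (SS SS_eq chern_up chern_low)

variable {Ω : Type*} [MeasurableSpace Ω] {μ : Measure Ω} [IsProbabilityMeasure μ]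

open Classical in
/-- the number of elements of a residue class -/
noncomputable def cn (Q : Set ℕ) (N d l : ℕ) : ℕ := ((Icc 1 N).filter (fun n => n ∈ Q ∧ n % d = l % d)).card

theorem cn_mod (Q : Set ℕ) (N d l : ℕ) : cn Q N d (l % d) = cn Q N d l := by
  classical
  unfold cn
  congr 1
  ext n
  rw [mem_filter, mem_filter, Nat.mod_mod]

omit [IsProbabilityMeasure μ] in
theorem Mn_mod (E : ℕ → Set Ω) (N d l : ℕ) : Mn μ E N d (l % d) = Mn μ E N d l := by
  unfold Mn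
  congr 1
  ext n
  rw [mem_filter, mem_filter, Nat.mod_mod]

omit [MeasurableSpace Ω] in
theorem SS_cn (E : ℕ → Set Ω) (N d l : ℕ) (ω : Ω) :
    SS E ((Icc 1 N).filter (fun n => n % d = l % d)) ω = cn {n | ω ∈ E n} N d l := by
  classical
  rw [SS_eq, filter_filter]
  unfold cn
  congr 2
  apply filter_congr
  intro n _
  exact and_comm

/-- the expectation is large -/
theorem Mn_large {T : ℕ → ℕ} (hTm : Monotone T) (hT : Sub T) {E : ℕ → Set Ω} (hE : Sieved μ E T)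
    (η : ℝ) (hη : 0 < η) : ∀ᶠ N : ℕ in atTop, ∀ d l : ℕ, 1 ≤ d → (d : ℝ) * ((N : ℝ) ^ η) ^ 4 ≤ N → l.Coprime d →
      4 * ((N : ℝ) ^ η) ^ 3 ≤ Mn μ E N d l := by
  have e1 := (isLittleO_log_rpow_atTop (r := η) hη).bound (show (0 : ℝ) < 1 / 20 by norm_num)
  filter_upwards [mean hTm hT hE 1 le_rfl η hη, tendsto_natCast_atTop_atTop.eventually e1,
    tlog.eventually_ge_atTop 2, eventually_ge_atTop 9] with N g1 g2 g3 g4 d l hd hdN hld
  have hN0 : (0 : ℝ) < N := by exact_mod_cast (by omega : 0 < N)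
  obtain ⟨L, hL⟩ : ∃ L, L = Real.log N := ⟨_, rfl⟩
  obtain ⟨s, hs⟩ : ∃ s, s = (N : ℝ) ^ η := ⟨_, rfl⟩
  have h1 := (g1 d l hd hld).1
  have h2 := MT_ge T N d hd g4
  rw [Real.norm_of_nonneg (by linarith), Real.norm_of_nonneg (by positivity)] at g2
  rw [← hL, ← hs] at g2 h1
  rw [← hL] at g3 h2
  rw [← hs] at hdN ⊢
  have hs0 : 0 < s := by linarith
  have hs1 : 1 ≤ s := by linarith
  have hd0 : (0 : ℝ) < d := by exact_mod_cast hd
  have h3 : s ^ 4 / (2 * L) ≤ MT T N d := by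
    refine le_trans ?_ h2
    rw [div_le_div_iff₀ (by positivity) (by positivity)]
    nlinarith
  have h4 : 1 / 2 * MT T N d ≤ (1 - 1 / L ^ 1) * MT T N d := by
    apply mul_le_mul_of_nonneg_right _ (MT_nonneg T N d)
    have : 1 / L ^ 1 ≤ 1 / 2 := by
      rw [pow_one]
      exact one_div_le_one_div_of_le (by norm_num) g3
    linarith
  have h5 : 10 * s ^ 3 ≤ s ^ 4 / (2 * L) := by
    rw [le_div_iff₀ (by positivity)]
    have : 0 ≤ s ^ 3 := by positivity
    nlinarith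
  have h6 : s ≤ s ^ 3 := le_self_pow₀ hs1 (by norm_num)
  linarith

/-- concentration in all residue classes at once -/
theorem conc {T : ℕ → ℕ} (hTm : Monotone T) (hT : Sub T) {E : ℕ → Set Ω} (hE : Sieved μ E T)
    (η : ℝ) (hη : 0 < η) : ∀ᵐ ω ∂μ, ∀ᶠ N : ℕ in atTop, ∀ d l : ℕ, 1 ≤ d →
      (d : ℝ) * ((N : ℝ) ^ η) ^ 4 ≤ N → l.Coprime d →
      |(cn {n | ω ∈ E n} N d l : ℝ) - Mn μ E N d l| ≤ 1 / (N : ℝ) ^ η * Mn μ E N d l := by
  classical
  obtain ⟨I, hI⟩ : ∃ I : ℕ → Finset (ℕ × ℕ), I = fun N => ((Icc 1 N) ×ˢ (range N)).filter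
    (fun p => (p.1 : ℝ) * ((N : ℝ) ^ η) ^ 4 ≤ N ∧ p.2.Coprime p.1) := ⟨_, rfl⟩
  obtain ⟨s, hs⟩ : ∃ s : ℕ → ℝ, s = fun N : ℕ => (N : ℝ) ^ η := ⟨_, rfl⟩
  obtain ⟨cl, hcl⟩ : ∃ cl : ℕ → ℕ × ℕ → Finset ℕ, cl = fun N p =>
    (Icc 1 N).filter (fun n => n % p.1 = p.2 % p.1) := ⟨_, rfl⟩
  obtain ⟨bad, hbad⟩ : ∃ bad : ℕ → Set Ω, bad = fun N => ⋃ p ∈ I N,
    ({ω | (1 + 1 / s N) * ∑ a ∈ cl N p, μ.real (E a) ≤ SS E (cl N p) ω} ∪
      {ω | SS E (cl N p) ω ≤ (1 - 1 / s N) * ∑ a ∈ cl N p, μ.real (E a)}) := ⟨_, rfl⟩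
  have hMn : ∀ N p, ∑ a ∈ cl N p, μ.real (E a) = Mn μ E N p.1 p.2 := by
    intro N p
    rw [hcl]
    rfl
  have hlog := (isLittleO_log_rpow_atTop (r := η) hη).bound (show (0 : ℝ) < 1 / 4 by norm_num)
  have hb : ∀ᶠ N : ℕ in atTop, μ.real (bad N) ≤ 2 * (1 / (N : ℝ) ^ (2 : ℝ)) := by
    filter_upwards [Mn_large hTm hT hE η hη, tendsto_natCast_atTop_atTop.eventually hlog,
      eventually_ge_atTop 1, tlog.eventually_ge_atTop 1] with N g1 g2 g3 g4
    have hN0 : (0 : ℝ) < N := by exact_mod_cast g3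
    rw [Real.norm_of_nonneg (by linarith), Real.norm_of_nonneg (by positivity)] at g2
    have hsN : s N = (N : ℝ) ^ η := by rw [hs]
    rw [← hsN] at g2
    have hs1 : 1 ≤ s N := by linarith
    have hs0 : 0 < s N := by linarith
    have hp : ∀ p ∈ I N, μ.real ({ω | (1 + 1 / s N) * ∑ a ∈ cl N p, μ.real (E a) ≤ SS E (cl N p) ω} ∪
      {ω | SS E (cl N p) ω ≤ (1 - 1 / s N) * ∑ a ∈ cl N p, μ.real (E a)}) ≤ 2 * Real.exp (-(s N)) := by
      intro p hp
      rw [hI] at hp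
      simp only [mem_filter, mem_product, mem_Icc, mem_range] at hp
      have h1 := chern_up E hE.meas hE.indep (cl N p) (1 / s N) (by positivity) (by
        rw [div_le_one hs0]
        exact hs1)
      have h2 := chern_low E hE.meas hE.indep (cl N p) (1 / s N) (by positivity) (by
        rw [div_le_one hs0]
        exact hs1)
      have h3 := g1 p.1 p.2 hp.1.1.1 hp.2.1 hp.2.2
      rw [← hMn, ← hsN] at h3
      have h4 : Real.exp (-((1 / s N) ^ 2 / 4 * ∑ a ∈ cl N p, μ.real (E a))) ≤ Real.exp (-(s N)) := by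
        apply Real.exp_le_exp.2
        apply neg_le_neg
        calc s N = (1 / s N) ^ 2 / 4 * (4 * (s N) ^ 3) := by field_simp
          _ ≤ _ := by gcongr
      refine (measureReal_union_le _ _).trans ?_
      linarith
    have h5 : μ.real (bad N) ≤ ∑ p ∈ I N, 2 * Real.exp (-(s N)) := by
      rw [hbad]
      exact (measureReal_biUnion_finset_le _ _).trans (sum_le_sum hp)
    refine h5.trans ?_
    rw [sum_const, nsmul_eq_mul]
    have h6 : ((I N).card : ℝ) ≤ (N : ℝ) ^ 2 := by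
      have : (I N).card ≤ N * N := by
        rw [hI]
        simp only
        refine (card_filter_le _ _).trans ?_
        rw [card_product, Nat.card_Icc, card_range]
        simp
      rw [pow_two]
      exact_mod_cast this
    have h7 : Real.exp (-(s N)) ≤ 1 / (N : ℝ) ^ 4 := by
      rw [one_div, ← Real.exp_log (show (0 : ℝ) < (N : ℝ) ^ 4 by positivity), ← Real.exp_neg]
      apply Real.exp_le_exp.2
      rw [Real.log_pow]
      push_cast
      linarith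
    have h8 : (N : ℝ) ^ (2 : ℝ) = (N : ℝ) ^ 2 := by exact_mod_cast Real.rpow_natCast (N : ℝ) 2
    rw [h8]
    calc ((I N).card : ℝ) * (2 * Real.exp (-(s N))) ≤ (N : ℝ) ^ 2 * (2 * (1 / (N : ℝ) ^ 4)) := by gcongr
      _ = 2 * (1 / (N : ℝ) ^ 2) := by
          field_simp
  obtain ⟨n₀, hn₀⟩ := eventually_atTop.1 hb
  obtain ⟨bad', hbad'⟩ : ∃ bad' : ℕ → Set Ω, bad' = fun n => if n₀ ≤ n then bad n else ∅ := ⟨_, rfl⟩
  have hsum : Summable (fun n : ℕ => 2 * (1 / (n : ℝ) ^ (2 : ℝ))) :=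
    (Real.summable_one_div_nat_rpow.2 (by norm_num)).mul_left 2
  have htot : ∑' n, μ (bad' n) ≠ ⊤ := by
    have h5 : ∀ n, μ (bad' n) ≤ ENNReal.ofReal (2 * (1 / (n : ℝ) ^ (2 : ℝ))) := by
      intro n
      rw [hbad']
      simp only
      split_ifs with hn
      · rw [← ENNReal.ofReal_toReal (measure_ne_top μ (bad n))]
        exact ENNReal.ofReal_le_ofReal (hn₀ n hn)
      · simp
    exact ne_top_of_le_ne_top hsum.tsum_ofReal_ne_top (ENNReal.tsum_le_tsum h5)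
  filter_upwards [ae_eventually_notMem htot] with ω hω
  filter_upwards [hω, eventually_ge_atTop (max n₀ 1), tlog.eventually_ge_atTop 1] with N hn hnn hlg d l hd hdN hld
  rw [hbad'] at hn
  simp only [if_pos ((le_max_left _ _).trans hnn)] at hn
  rw [hbad] at hn
  have hN1 : 1 ≤ N := (le_max_right _ _).trans hnn
  have hNr : (1 : ℝ) ≤ N := by exact_mod_cast hN1
  have hs1 : 1 ≤ (N : ℝ) ^ η := Real.one_le_rpow hNr hη.le
  have hdN' : d ≤ N := by
    have : (d : ℝ) ≤ N := by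
      have h1 : (1 : ℝ) ≤ ((N : ℝ) ^ η) ^ 4 := one_le_pow₀ hs1
      have h2 : (0 : ℝ) ≤ d := Nat.cast_nonneg d
      nlinarith
    exact_mod_cast this
  have hmem : (d, l % d) ∈ I N := by
    rw [hI]
    simp only [mem_filter, mem_product, mem_Icc, mem_range]
    refine ⟨⟨⟨hd, hdN'⟩, ?_⟩, hdN, ?_⟩
    · exact (Nat.mod_lt l hd).trans_le hdN'
    · have h1 := (Nat.mod_modEq l d).gcd_eq
      unfold Nat.Coprime at hld ⊢
      rw [h1, hld]
  simp only [Set.mem_iUnion, not_exists] at hn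
  have h1 := hn (d, l % d) hmem
  simp only [Set.mem_union, Set.mem_ofPred_eq, not_or, not_le] at h1
  rw [hMn, hcl] at h1
  simp only at h1
  rw [SS_cn, Mn_mod, cn_mod] at h1
  have hsN : s N = (N : ℝ) ^ η := by rw [hs]
  rw [hsN] at h1
  rw [abs_le]
  constructor <;> linarith [h1.1, h1.2]

/-- the asymptotic formula -/
theorem asym {T : ℕ → ℕ} (hTm : Monotone T) (hT : Sub T) {E : ℕ → Set Ω} (hE : Sieved μ E T)
    (η : ℝ) (hη : 0 < η) (hη1 : η ≤ 1 / 8) : ∀ᵐ ω ∂μ, ∀ A : ℕ, ∀ᶠ N : ℕ in atTop, ∀ d l : ℕ, 1 ≤ d →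
      (d : ℝ) * ((N : ℝ) ^ η) ^ 4 ≤ N → l.Coprime d →
      |(cn {n | ω ∈ E n} N d l : ℝ) - MT T N d| ≤ 1 / (d.totient : ℝ) * N / (Real.log N) ^ A := by
  filter_upwards [conc hTm hT hE η hη] with ω hω A
  have hlog : ∀ᶠ N : ℕ in atTop, 20 * (Real.log N) ^ (A + 1) ≤ (N : ℝ) ^ η := by
    have h1 := (isLittleO_log_rpow_rpow_atTop ((A + 1 : ℕ) : ℝ) hη).bound (show (0 : ℝ) < 1 / 20 by norm_num)
    filter_upwards [tendsto_natCast_atTop_atTop.eventually h1, tlog.eventually_ge_atTop 1] with N g1 g2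
    rw [Real.norm_of_nonneg (by positivity), Real.norm_of_nonneg (by positivity), Real.rpow_natCast] at g1
    linarith
  filter_upwards [hω, mean hTm hT hE (A + 1) (by omega) η hη, hlog, tlog.eventually_ge_atTop 2,
    eventually_ge_atTop 9] with N g1 g2 g3 g4 g5 d l hd hdN hld
  have h1 := g1 d l hd hdN hld
  have h2 := g2 d l hd hld
  have h3 := MT_le T N d hd g5
  have h3' := MT_nonneg T N d
  have hN1 : (1 : ℝ) ≤ N := by exact_mod_cast (by omega : 1 ≤ N)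
  have hN0 : (0 : ℝ) < N := by linarith
  obtain ⟨L, hL⟩ : ∃ L, L = Real.log N := ⟨_, rfl⟩
  obtain ⟨s, hs⟩ : ∃ s, s = (N : ℝ) ^ η := ⟨_, rfl⟩
  have hq : (Nat.sqrt N : ℝ) ≤ N / s := by
    have k1 : ((Nat.sqrt N : ℝ)) ^ 2 ≤ N := by exact_mod_cast Nat.sqrt_le' N
    have k2 : s ^ 2 ≤ N := by
      have k3 : s ^ 2 = (N : ℝ) ^ (2 * η) := by
        rw [hs, ← Real.rpow_natCast, ← Real.rpow_mul hN0.le]
        congr 1
        push_cast
        ring
      rw [k3]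
      calc (N : ℝ) ^ (2 * η) ≤ (N : ℝ) ^ (1 : ℝ) := Real.rpow_le_rpow_of_exponent_le hN1 (by linarith)
        _ = N := Real.rpow_one _
    have hs0 : 0 < s := by rw [hs]; positivity
    rw [le_div_iff₀ hs0]
    have k4 : ((Nat.sqrt N : ℝ) * s) ^ 2 ≤ (N : ℝ) ^ 2 := by
      rw [mul_pow, pow_two (N : ℝ)]
      exact mul_le_mul k1 k2 (by positivity) hN0.le
    exact (pow_le_pow_iff_left₀ (by positivity) hN0.le (by norm_num)).1 k4
  rw [← hL] at g3 g4 h2 ⊢
  rw [← hs] at g3 h1 h2 hdN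
  have hs0 : 0 < s := by
    have : 0 < 20 * L ^ (A + 1) := by positivity
    linarith
  have hs1 : 1 ≤ s := by
    rw [hs]
    exact Real.one_le_rpow hN1 hη.le
  have hd0 : (0 : ℝ) < d := by exact_mod_cast hd
  have htot : 0 < d.totient := Nat.totient_pos.2 hd
  have htot0 : (0 : ℝ) < d.totient := by exact_mod_cast htot
  obtain ⟨X, hX⟩ : ∃ X, X = 1 / (d.totient : ℝ) * N := ⟨_, rfl⟩
  rw [← hX] at h3 ⊢
  have hX0 : 0 < X := by rw [hX]; positivity
  have hXd : (N : ℝ) / d ≤ X := by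
    rw [hX, div_eq_mul_one_div, mul_comm]
    apply mul_le_mul_of_nonneg_right _ hN0.le
    apply one_div_le_one_div_of_le htot0
    exact_mod_cast Nat.totient_le d
  have hXs : s ^ 4 ≤ X := by
    refine le_trans ?_ hXd
    rw [le_div_iff₀ hd0]
    linarith
  obtain ⟨M, hM⟩ : ∃ M, M = Mn μ E N d l := ⟨_, rfl⟩
  rw [← hM] at h1 h2
  have hLA : 1 ≤ L ^ (A + 1) := one_le_pow₀ (by linarith)
  have hδ : 1 / L ^ (A + 1) ≤ 1 := by
    rw [div_le_one (by positivity)]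
    exact hLA
  have hδ0 : 0 < 1 / L ^ (A + 1) := by positivity
  -- the small terms
  have t1 : s ≤ X / s := by
    rw [le_div_iff₀ hs0]
    have : s * s ≤ s ^ 4 := by
      rw [← pow_two]
      exact pow_le_pow_right₀ hs1 (by norm_num)
    linarith
  have t2 : (Nat.sqrt N : ℝ) / d ≤ X / s := by
    calc (Nat.sqrt N : ℝ) / d ≤ (N / s) / d := div_le_div_of_nonneg_right hq hd0.le
      _ = (N / d) / s := by ring
      _ ≤ X / s := div_le_div_of_nonneg_right hXd hs0.le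
  have t3 : (2 : ℝ) ≤ 2 * (X / s) := by
    have : 1 ≤ X / s := by
      rw [le_div_iff₀ hs0]
      have : s ≤ s ^ 4 := le_self_pow₀ hs1 (by norm_num)
      linarith
    linarith
  have t4 : X / s ≤ X := div_le_self hX0.le hs1
  have hMX : M ≤ 6 * X := by
    have k1 : 1 / L ^ (A + 1) * MT T N d ≤ 1 * MT T N d := by gcongr
    linarith [h2.2]
  have t5 : 1 / s * M ≤ 6 * (X / s) := by
    calc 1 / s * M ≤ 1 / s * (6 * X) := by gcongr
      _ = 6 * (X / s) := by ring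
  have t6 : 1 / L ^ (A + 1) * MT T N d ≤ 1 / L ^ (A + 1) * X := by gcongr
  have t7 : X / s ≤ 1 / 20 * (1 / L ^ (A + 1) * X) := by
    rw [div_le_iff₀ hs0]
    have k1 : 1 / 20 * (1 / L ^ (A + 1) * X) * (20 * L ^ (A + 1)) = X := by field_simp
    have k2 : 1 / 20 * (1 / L ^ (A + 1) * X) * (20 * L ^ (A + 1)) ≤ 1 / 20 * (1 / L ^ (A + 1) * X) * s := by
      gcongr
    linarith
  have t8 : 2 * (1 / L ^ (A + 1) * X) ≤ X / L ^ A := by
    have k1 : 2 * (1 / L ^ (A + 1) * X) = 2 / L * (X / L ^ A) := by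
      rw [pow_succ]
      field_simp
    rw [k1]
    have k2 : 2 / L ≤ 1 := by
      rw [div_le_one (by linarith)]
      exact g4
    have k3 : 0 ≤ X / L ^ A := by positivity
    nlinarith
  have h4 := abs_le.1 h1
  have t9 : 0 ≤ 1 / L ^ (A + 1) * X := by positivity
  rw [abs_le]
  constructor
  · linarith [h4.1, h2.1]
  · linarith [h4.2, h2.2]

end Pool.Agent.U839.Eh
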