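import Mathlib
import Pool.Agent.U839.Eh.Prob

set_option autoImplicit false

/-! # The Elliott–Halberstam conjecture in random models -/

open MeasureTheory ProbabilityTheory Filter Finset Topology

namespace Pool.Agent.U839.Eh

open Pool.Agent.U839.Sv (Pr mem_Pr W W_eq W_pos one_sub_pos fT fT_nonneg Sieved law')
open Pool.Agent.U839.Thin (tlog)
open Pool.Agent.U839.Fb (tloglog)

variable {Ω : Type*} [MeasurableSpace Ω] {μ : Measure Ω} [IsProbabilityMeasure μ]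

/-- the error term -/
noncomputable def err (Q : Set ℕ) (x : ℝ) (d l : ℕ) : ℝ := (cn Q ⌊x⌋₊ d l : ℝ) - li x / d.totient

/-- admissible exponents -/
def Adm (Q : Set ℕ) (α : ℝ) : Prop := ∀ U : ℝ, 0 < U → ∃ C : ℝ, ∀ x : ℝ, 3 ≤ x → ∀ l : ℕ → ℕ,
  (∀ d, (l d).Coprime d) → ∑ d ∈ (Icc 1 ⌊x ^ α⌋₊).filter Squarefree, |err Q x d (l d)| ≤ C * x / (Real.log x) ^ U

/-- `T` exceeds every power of the logarithm -/
def Deep (T : ℕ → ℕ) : Prop := ∀ B : ℕ, ∀ᶠ n : ℕ in atTop, (Real.log n) ^ B ≤ T n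

/-- the pointwise asymptotic formula -/
def PW (Q : Set ℕ) : Prop := ∀ ε : ℝ, 0 < ε → ∀ A : ℕ, ∀ᶠ x : ℝ in atTop, ∀ d l : ℕ, 1 ≤ d → (d : ℝ) ≤ x ^ (1 - ε) →
  l.Coprime d → |err Q x d l| ≤ x / (d.totient * (Real.log x) ^ A)

/-- failure of the theorem of Siegel and Walfisz -/
def NSW (Q : Set ℕ) : Prop := ∃ B : ℕ, ∃ᶠ N : ℕ in atTop, ∃ d : ℕ, d.Prime ∧ (d : ℝ) ≤ (Real.log N) ^ B ∧
  (N : ℝ) / (Real.log N) ^ B ≤ |err Q N d 1|

theorem log_sqrt : ∀ᶠ N : ℕ in atTop, Real.log N ≤ 3 * Real.log (Nat.sqrt N) := by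
  filter_upwards [eventually_ge_atTop 64] with N hN
  have h1 : 8 ≤ Nat.sqrt N := by
    rw [Nat.le_sqrt]
    omega
  have h2 : N ≤ (Nat.sqrt N) ^ 3 := by
    have h3 : N < (Nat.sqrt N + 1) * (Nat.sqrt N + 1) := Nat.lt_succ_sqrt N
    obtain ⟨q, hq⟩ : ∃ q, q = Nat.sqrt N := ⟨_, rfl⟩
    rw [← hq] at h1 h3 ⊢
    nlinarith
  have h3 : (N : ℝ) ≤ ((Nat.sqrt N : ℝ)) ^ 3 := by exact_mod_cast h2
  have h4 := Real.log_le_log (by exact_mod_cast (by omega : 0 < N)) h3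
  rw [Real.log_pow] at h4
  exact_mod_cast h4

theorem sqrt_small (A : ℕ) : ∀ᶠ N : ℕ in atTop, (Nat.sqrt N : ℝ) + 4 ≤ N / (Real.log N) ^ A := by
  have h1 := (isLittleO_log_rpow_rpow_atTop (A : ℝ) (show (0 : ℝ) < 1 / 2 by norm_num)).bound
    (show (0 : ℝ) < 1 / 5 by norm_num)
  filter_upwards [tendsto_natCast_atTop_atTop.eventually h1, tlog.eventually_ge_atTop 1, eventually_ge_atTop 1]
    with N g1 g2 g3
  rw [Real.norm_of_nonneg (by positivity), Real.norm_of_nonneg (by positivity), Real.rpow_natCast] at g1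
  have hN1 : (1 : ℝ) ≤ N := by exact_mod_cast g3
  have hN0 : (0 : ℝ) < N := by linarith
  obtain ⟨s, hs⟩ : ∃ s, s = (N : ℝ) ^ (1 / 2 : ℝ) := ⟨_, rfl⟩
  rw [← hs] at g1
  have hs0 : 0 ≤ s := by rw [hs]; positivity
  have hs1 : 1 ≤ s := by
    rw [hs]
    exact Real.one_le_rpow hN1 (by norm_num)
  have h5 : s * s = N := by
    rw [hs, ← Real.rpow_add hN0]
    norm_num
  have h4 : ((Nat.sqrt N : ℝ)) ^ 2 ≤ N := by exact_mod_cast Nat.sqrt_le' N
  have h6 : (Nat.sqrt N : ℝ) ≤ s := by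
    have h7 : ((Nat.sqrt N : ℝ)) ^ 2 ≤ s ^ 2 := by
      rw [pow_two s, h5]
      exact h4
    exact (pow_le_pow_iff_left₀ (Nat.cast_nonneg _) hs0 (by norm_num)).1 h7
  rw [le_div_iff₀ (by positivity)]
  calc ((Nat.sqrt N : ℝ) + 4) * (Real.log N) ^ A ≤ (5 * s) * (1 / 5 * s) := by
        apply mul_le_mul (by linarith) g1 (by positivity) (by positivity)
    _ = N := by rw [← h5]; ring

/-- comparison of the main terms -/
theorem comp {T : ℕ → ℕ} (hTm : Monotone T) (hD : Deep T) (A : ℕ) : ∀ᶠ N : ℕ in atTop, ∀ d : ℕ, 1 ≤ d → d ≤ N →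
    |MT T N d - 1 / (d.totient : ℝ) * ∑ n ∈ Ioc (Nat.sqrt N) N, 1 / Real.log n| ≤
      1 / (d.totient : ℝ) * N / (Real.log N) ^ A := by
  have hsq : Tendsto (fun N : ℕ => Nat.sqrt N) atTop atTop := by
    apply tendsto_atTop.2
    intro b
    filter_upwards [eventually_ge_atTop (b * b)] with N hN
    exact Nat.le_sqrt.2 hN
  filter_upwards [hsq.eventually (hD (A + 2)), log_sqrt, tlog.eventually_ge_atTop (2 * 3 ^ (A + 2)),
    eventually_ge_atTop 64] with N g1 g2 g3 g4 d hd hdN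
  obtain ⟨q, hq⟩ : ∃ q, q = Nat.sqrt N := ⟨_, rfl⟩
  unfold MT
  rw [← hq] at g1 g2 ⊢
  have hq8 : 8 ≤ q := by
    rw [hq, Nat.le_sqrt]
    omega
  obtain ⟨L, hL⟩ : ∃ L, L = Real.log N := ⟨_, rfl⟩
  rw [← hL] at g2 g3 ⊢
  have hL2 : 2 ≤ L := by
    have : (1 : ℝ) ≤ 3 ^ (A + 2) := one_le_pow₀ (by norm_num)
    linarith
  have hN0 : (0 : ℝ) < N := by exact_mod_cast (by omega : 0 < N)
  have hTq : L ^ (A + 2) / 3 ^ (A + 2) ≤ T q := by
    refine le_trans ?_ g1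
    rw [← div_pow]
    apply pow_le_pow_left₀ (by positivity)
    linarith
  have hTq0 : (0 : ℝ) < T q := lt_of_lt_of_le (by positivity) hTq
  have hTq1 : 1 ≤ T q := by exact_mod_cast hTq0
  have key : ∀ n ∈ Ioc q N, |ph d (T n) / Real.log n - 1 / (d.totient : ℝ) * (1 / Real.log n)| ≤
      1 / (d.totient : ℝ) * (1 / L ^ A) := by
    intro n hn
    rw [mem_Ioc] at hn
    have h3 : (3 : ℝ) ≤ n := by exact_mod_cast (by omega : 3 ≤ n)
    have h5 : 1 ≤ Real.log n := by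
      rw [Real.le_log_iff_exp_le (by linarith)]
      have := Real.exp_one_lt_d9
      linarith
    have hTn : (T q : ℝ) ≤ T n := by exact_mod_cast hTm hn.1.le
    have hTn1 : 1 ≤ T n := hTq1.trans (hTm hn.1.le)
    have h6 := ph_le d (T n) hd
    have h7 := ph_ge d (T n) hd hTn1
    have h8 : 1 / (d.totient : ℝ) - ph d (T n) ≤ 1 / (d.totient : ℝ) * (1 / L ^ A) := by
      have h9 : Real.log d / Real.log 2 / T n ≤ 1 / L ^ A := by
        have hd0 : (0 : ℝ) < d := by exact_mod_cast hd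
        have k1 : Real.log d ≤ L := by
          rw [hL]
          exact Real.log_le_log hd0 (by exact_mod_cast hdN)
        have k0 : 0 ≤ Real.log d := Real.log_natCast_nonneg d
        have k2 : Real.log d / Real.log 2 ≤ 2 * L := by
          rw [div_le_iff₀ (Real.log_pos (by norm_num))]
          have := Real.log_two_gt_d9
          nlinarith
        calc Real.log d / Real.log 2 / T n ≤ 2 * L / T q := by
              apply div_le_div₀ (by positivity) k2 hTq0 hTn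
          _ ≤ 2 * L / (L ^ (A + 2) / 3 ^ (A + 2)) := div_le_div_of_nonneg_left (by positivity) (by positivity) hTq
          _ = (2 * 3 ^ (A + 2)) / L * (1 / L ^ A) := by
              field_simp
              ring
          _ ≤ 1 * (1 / L ^ A) := by
              apply mul_le_mul_of_nonneg_right _ (by positivity)
              rw [div_le_one (by linarith)]
              exact g3
          _ = 1 / L ^ A := one_mul _
      have h10 : 1 / (d.totient : ℝ) * (Real.log d / Real.log 2 / T n) ≤ 1 / (d.totient : ℝ) * (1 / L ^ A) := by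
        gcongr
      linarith
    have h9 : ph d (T n) / Real.log n - 1 / (d.totient : ℝ) * (1 / Real.log n) =
        -((1 / (d.totient : ℝ) - ph d (T n)) / Real.log n) := by ring
    rw [h9, abs_neg, abs_of_nonneg (div_nonneg (by linarith) (by linarith))]
    exact (div_le_self (by linarith) h5).trans h8
  rw [mul_sum, ← sum_sub_distrib]
  refine (abs_sum_le_sum_abs _ _).trans ((sum_le_sum key).trans ?_)
  rw [sum_const, Nat.card_Ioc, nsmul_eq_mul]
  have h1 : ((N - q : ℕ) : ℝ) ≤ N := by exact_mod_cast Nat.sub_le N q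
  calc ((N - q : ℕ) : ℝ) * (1 / (d.totient : ℝ) * (1 / L ^ A)) ≤ N * (1 / (d.totient : ℝ) * (1 / L ^ A)) := by gcongr
    _ = _ := by ring

/-- the pointwise formula -/
theorem pointwise {T : ℕ → ℕ} (hTm : Monotone T) (hD : Deep T) (Q : Set ℕ)
    (hQ : ∀ j : ℕ, ∀ A : ℕ, ∀ᶠ N : ℕ in atTop, ∀ d l : ℕ, 1 ≤ d →
      (d : ℝ) * ((N : ℝ) ^ (1 / ((j : ℝ) + 8))) ^ 4 ≤ N → l.Coprime d →
      |(cn Q N d l : ℝ) - MT T N d| ≤ 1 / (d.totient : ℝ) * N / (Real.log N) ^ A) : PW Q := by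
  intro ε hε A
  obtain ⟨j, hj⟩ : ∃ j : ℕ, 5 / ε ≤ j := exists_nat_ge _
  have hfl : Tendsto (fun x : ℝ => ⌊x⌋₊) atTop atTop := tendsto_nat_floor_atTop
  have hη : 5 * (1 / ((j : ℝ) + 8)) ≤ ε := by
    rw [div_le_iff₀ hε] at hj
    rw [mul_one_div, div_le_iff₀ (by positivity)]
    nlinarith
  have hη0 : 0 < 1 / ((j : ℝ) + 8) := by positivity
  obtain ⟨η, hη'⟩ : ∃ η, η = 1 / ((j : ℝ) + 8) := ⟨_, rfl⟩
  have hQj := hQ j (A + 1)
  rw [← hη'] at hη hη0
  simp only [← hη'] at hQj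
  have h2N : ∀ᶠ N : ℕ in atTop, (2 : ℝ) ≤ (N : ℝ) ^ η :=
    ((tendsto_rpow_atTop hη0).comp tendsto_natCast_atTop_atTop).eventually_ge_atTop _
  filter_upwards [hfl.eventually hQj, hfl.eventually (comp hTm hD (A + 1)), hfl.eventually (sqrt_small (A + 1)),
    hfl.eventually h2N, hfl.eventually (tlog.eventually_ge_atTop (3 * 2 ^ A)), eventually_ge_atTop (64 : ℝ)]
    with x g1 g2 g3 g4 g5 g6 d l hd hdx hld
  obtain ⟨N, hN⟩ : ∃ N, N = ⌊x⌋₊ := ⟨_, rfl⟩
  rw [← hN] at g1 g2 g3 g4 g5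
  have hN64 : 64 ≤ N := by
    rw [hN]
    exact Nat.le_floor (by exact_mod_cast g6)
  have hN1 : (1 : ℝ) ≤ N := by exact_mod_cast (by omega : 1 ≤ N)
  have hN0 : (0 : ℝ) < N := by linarith
  have hNx : (N : ℝ) ≤ x := by
    rw [hN]
    exact Nat.floor_le (by linarith)
  have hxN : x < N + 1 := by
    rw [hN]
    exact Nat.lt_floor_add_one x
  have hd0 : (0 : ℝ) < d := by exact_mod_cast hd
  have hd4 : (d : ℝ) * ((N : ℝ) ^ η) ^ 4 ≤ N := by
    rcases le_or_gt ε 1 with hε1 | hε1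
    · have k1 : x ^ (1 - ε) ≤ 2 * (N : ℝ) ^ (1 - ε) := by
        calc x ^ (1 - ε) ≤ (2 * N) ^ (1 - ε) := Real.rpow_le_rpow (by linarith) (by linarith) (by linarith)
          _ = 2 ^ (1 - ε) * (N : ℝ) ^ (1 - ε) := Real.mul_rpow (by norm_num) hN0.le
          _ ≤ 2 ^ (1 : ℝ) * (N : ℝ) ^ (1 - ε) := by
              apply mul_le_mul_of_nonneg_right _ (by positivity)
              exact Real.rpow_le_rpow_of_exponent_le (by norm_num) (by linarith)
          _ = 2 * (N : ℝ) ^ (1 - ε) := by rw [Real.rpow_one]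
      have k2 : ((N : ℝ) ^ η) ^ 4 = (N : ℝ) ^ (4 * η) := by
        rw [← Real.rpow_natCast, ← Real.rpow_mul hN0.le]
        congr 1
        push_cast
        ring
      calc (d : ℝ) * ((N : ℝ) ^ η) ^ 4 ≤ (2 * (N : ℝ) ^ (1 - ε)) * ((N : ℝ) ^ η) ^ 4 := by
            apply mul_le_mul_of_nonneg_right (hdx.trans k1) (by positivity)
        _ ≤ ((N : ℝ) ^ η * (N : ℝ) ^ (1 - ε)) * (N : ℝ) ^ (4 * η) := by
            rw [k2]
            gcongr
        _ = (N : ℝ) ^ (η + (1 - ε) + 4 * η) := by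
            rw [Real.rpow_add hN0, Real.rpow_add hN0]
        _ ≤ (N : ℝ) ^ (1 : ℝ) := Real.rpow_le_rpow_of_exponent_le hN1 (by linarith)
        _ = N := Real.rpow_one _
    · exfalso
      have k1 : x ^ (1 - ε) < 1 := Real.rpow_lt_one_of_one_lt_of_neg (by linarith) (by linarith)
      have k2 : (1 : ℝ) ≤ d := by exact_mod_cast hd
      linarith
  have hdN : d ≤ N := by
    have : (d : ℝ) ≤ N := by
      have h1 : (1 : ℝ) ≤ ((N : ℝ) ^ η) ^ 4 := one_le_pow₀ (by linarith)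
      nlinarith
    exact_mod_cast this
  have h1 := abs_le.1 (g1 d l hd hd4 hld)
  have h2 := abs_le.1 (g2 d hd hdN)
  have h3 := abs_le.1 (li_sum x (Nat.sqrt N) (by
    rw [Nat.le_sqrt]
    omega) (by
    refine le_trans ?_ hNx
    exact_mod_cast Nat.sqrt_le_self N))
  rw [← hN] at h3
  have htot : 0 < d.totient := Nat.totient_pos.2 hd
  have htot0 : (0 : ℝ) < d.totient := by exact_mod_cast htot
  obtain ⟨L, hL⟩ : ∃ L, L = Real.log N := ⟨_, rfl⟩
  rw [← hL] at g3 g5 h1 h2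
  have hA1 : (1 : ℝ) ≤ 2 ^ A := one_le_pow₀ (by norm_num)
  have hL3 : 3 ≤ L := by linarith
  obtain ⟨f, hf⟩ : ∃ f : ℝ, f = 1 / (d.totient : ℝ) := ⟨_, rfl⟩
  have hf0 : 0 < f := by rw [hf]; positivity
  obtain ⟨S, hS⟩ : ∃ S, S = ∑ n ∈ Ioc (Nat.sqrt N) N, 1 / Real.log (n : ℝ) := ⟨_, rfl⟩
  rw [← hf, ← hS] at h2
  rw [← hf] at h1
  rw [← hS] at h3
  have h4 : err Q x d l = cn Q N d l - f * li x := by
    unfold err
    rw [hf, hN]
    ring
  have k0 : f * |li x - S| ≤ f * (N / L ^ (A + 1)) := by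
    apply mul_le_mul_of_nonneg_left _ hf0.le
    rw [abs_le]
    constructor <;> linarith [h3.1, h3.2]
  have k1 : |f * li x - f * S| ≤ f * (N / L ^ (A + 1)) := by
    rw [← mul_sub, abs_mul, abs_of_pos hf0]
    exact k0
  have k2 := abs_le.1 k1
  have k3 : f * N / L ^ (A + 1) = f * (N / L ^ (A + 1)) := by ring
  rw [k3] at h1 h2
  have k4 : |err Q x d l| ≤ 3 * (f * (N / L ^ (A + 1))) := by
    rw [h4, abs_le]
    constructor <;> linarith [h1.1, h1.2, h2.1, h2.2, k2.1, k2.2]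
  refine k4.trans ?_
  -- from `N` to `x`
  have hlx : Real.log x ≤ 2 * L := by
    have k5 : x ≤ 2 * N := by linarith
    have k6 := Real.log_le_log (by linarith) k5
    rw [Real.log_mul (by norm_num) hN0.ne', ← hL] at k6
    have := Real.log_two_lt_d9
    linarith
  have hlx0 : 0 < Real.log x := Real.log_pos (by linarith)
  have k5 : (Real.log x) ^ A ≤ 2 ^ A * L ^ A := by
    rw [← mul_pow]
    exact pow_le_pow_left₀ hlx0.le hlx A
  have k6 : x / (d.totient * (Real.log x) ^ A) = f * (x / (Real.log x) ^ A) := by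
    rw [hf]
    field_simp
  rw [k6]
  have k7 : 3 * (f * (N / L ^ (A + 1))) = f * (3 * N / L ^ (A + 1)) := by ring
  rw [k7]
  apply mul_le_mul_of_nonneg_left _ hf0.le
  rw [div_le_div_iff₀ (by positivity) (by positivity)]
  calc 3 * (N : ℝ) * (Real.log x) ^ A ≤ 3 * x * (2 ^ A * L ^ A) := by gcongr
    _ = x * ((3 * 2 ^ A) * L ^ A) := by ring
    _ ≤ x * (L * L ^ A) := by gcongr
    _ = x * L ^ (A + 1) := by ring

end Pool.Agent.U839.Eh
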