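import Mathlib
import Pool.Agent.U839.Eh.Fin

set_option autoImplicit false

/-! # The Elliott–Halberstam conjecture in random models: main theorem -/

open MeasureTheory ProbabilityTheory Filter Finset Topology

namespace Pool.Agent.U839.Eh

open Pool.Agent.U839.Sv (Pr mem_Pr W W_eq W_pos one_sub_pos fT fT_nonneg Sieved law' W_bound W_mono)
open Pool.Agent.U839.Thin (tlog)
open Pool.Agent.U839.Fb (tloglog)

variable {Ω : Type*} [MeasurableSpace Ω] {μ : Measure Ω} [IsProbabilityMeasure μ]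

theorem inv_tot_le (d : ℕ) (hd : 1 ≤ d) : 1 / (d.totient : ℝ) ≤ 1 / (d : ℝ) * W d := by
  have h1 := ph_split d d hd
  have h2 : d.primeFactors.filter (fun p => ¬ p ≤ d) = ∅ := by
    apply eq_empty_of_forall_notMem
    intro p hp
    rw [mem_filter] at hp
    exact hp.2 (Nat.le_of_mem_primeFactors hp.1)
  rw [h2, prod_empty, mul_one] at h1
  rw [← h1]
  unfold ph
  apply mul_le_mul_of_nonneg_left _ (by positivity)
  rw [W_eq]
  have hsub : (Pr d).filter (fun p => p ∣ d) ⊆ Pr d := filter_subset _ _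
  rw [← prod_sdiff hsub]
  have h3 : 1 ≤ ∏ p ∈ Pr d \ (Pr d).filter (fun p => p ∣ d), (1 - 1 / (p : ℝ))⁻¹ := by
    have h4 := Finset.prod_le_prod (s := Pr d \ (Pr d).filter (fun p => p ∣ d)) (f := fun _ => (1 : ℝ))
      (g := fun p : ℕ => (1 - 1 / (p : ℝ))⁻¹) (fun _ _ => zero_le_one)
      (fun p hp => by
        rw [Finset.mem_sdiff, mem_Pr] at hp
        exact one_le_inv_iff₀.2 ⟨one_sub_pos hp.1.1, Pool.Agent.U839.Sv.one_sub_le⟩)
    simpa using h4
  have h5 : 0 ≤ ∏ p ∈ (Pr d).filter (fun p => p ∣ d), (1 - 1 / (p : ℝ))⁻¹ := by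
    apply Finset.prod_nonneg
    intro p hp
    rw [mem_filter, mem_Pr] at hp
    exact inv_nonneg.2 (one_sub_pos hp.1.1).le
  nlinarith

/-- the sum of `1/φ(d)` -/
theorem sum_tot : ∃ C : ℝ, 0 < C ∧ ∀ (Y : ℕ) (x : ℝ), (Y : ℝ) ≤ x → 3 ≤ x →
    ∑ d ∈ Icc 1 Y, 1 / (d.totient : ℝ) ≤ C * (Real.log x) ^ 2 := by
  obtain ⟨C, hC, hW⟩ := W_bound
  refine ⟨4 * C, by positivity, fun Y x hY hx => ?_⟩
  have hL1 : 1 ≤ Real.log x := by
    rw [Real.le_log_iff_exp_le (by linarith)]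
    have := Real.exp_one_lt_d9
    linarith
  rcases Nat.eq_zero_or_pos Y with h0 | h0
  · rw [h0]
    simp only [Icc_eq_empty_of_lt (show 0 < 1 by norm_num), sum_empty]
    positivity
  have hY0 : (0 : ℝ) < Y := by exact_mod_cast h0
  have hlY : Real.log Y ≤ Real.log x := Real.log_le_log hY0 hY
  have h1 : ∀ d ∈ Icc 1 Y, 1 / (d.totient : ℝ) ≤ (2 * C * Real.log x) * (d : ℝ)⁻¹ := by
    intro d hd
    rw [mem_Icc] at hd
    refine (inv_tot_le d hd.1).trans ?_
    have h2 : W d ≤ 2 * C * Real.log x := by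
      refine (W_mono hd.2).trans ((hW Y).trans ?_)
      nlinarith
    rw [one_div, mul_comm]
    apply mul_le_mul_of_nonneg_right h2 (by positivity)
  refine (sum_le_sum h1).trans ?_
  rw [← mul_sum]
  have h2 : ∑ d ∈ Icc 1 Y, (d : ℝ)⁻¹ ≤ 1 + Real.log Y := by
    have h3 := harmonic_le_one_add_log Y
    rw [harmonic_eq_sum_Icc] at h3
    push_cast at h3
    exact h3
  have h3 : ∑ d ∈ Icc 1 Y, (d : ℝ)⁻¹ ≤ 2 * Real.log x := by linarith
  calc 2 * C * Real.log x * ∑ d ∈ Icc 1 Y, (d : ℝ)⁻¹ ≤ 2 * C * Real.log x * (2 * Real.log x) := by gcongr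
    _ = 4 * C * (Real.log x) ^ 2 := by ring

theorem cn_le (Q : Set ℕ) (N d l : ℕ) : cn Q N d l ≤ N := by
  classical
  unfold cn
  refine (card_filter_le _ _).trans ?_
  rw [Nat.card_Icc]
  omega

theorem li_abs (x : ℝ) (hx : 3 ≤ x) : |li x| ≤ 2 * x := by
  have hl2' := Real.log_two_gt_d9
  have hi : 1 / Real.log 2 ≤ 2 := by
    rw [div_le_iff₀ (by linarith)]
    linarith
  have h3 := intervalIntegral.norm_integral_le_of_norm_le_const (a := (2 : ℝ)) (b := x)
    (f := fun t => 1 / Real.log t) (C := 2) (fun t ht => by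
      rw [Set.uIoc_of_le (by linarith)] at ht
      have h4 : Real.log 2 ≤ Real.log t := Real.log_le_log (by norm_num) ht.1.le
      rw [Real.norm_of_nonneg (one_div_nonneg.2 (by linarith))]
      refine le_trans ?_ hi
      exact one_div_le_one_div_of_le (by linarith) h4)
  rw [Real.norm_eq_abs] at h3
  unfold li
  refine h3.trans ?_
  rw [abs_of_nonneg (by linarith)]
  linarith

theorem err_abs (Q : Set ℕ) (x : ℝ) (hx : 3 ≤ x) (d l : ℕ) (hd : 1 ≤ d) : |err Q x d l| ≤ 3 * x := by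
  unfold err
  have h1 : (cn Q ⌊x⌋₊ d l : ℝ) ≤ x := by
    have h2 : (cn Q ⌊x⌋₊ d l : ℝ) ≤ (⌊x⌋₊ : ℝ) := by exact_mod_cast cn_le Q _ d l
    exact h2.trans (Nat.floor_le (by linarith))
  have h2 := li_abs x hx
  have htot : 0 < d.totient := Nat.totient_pos.2 hd
  have htot0 : (1 : ℝ) ≤ d.totient := by exact_mod_cast htot
  have h3 : |li x / d.totient| ≤ 2 * x := by
    rw [abs_div, abs_of_pos (show (0 : ℝ) < d.totient by linarith)]
    exact (div_le_self (abs_nonneg _) htot0).trans h2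
  have h4 := abs_le.1 h3
  have h5 : (0 : ℝ) ≤ cn Q ⌊x⌋₊ d l := Nat.cast_nonneg _
  rw [abs_le]
  constructor <;> linarith [h4.1, h4.2]

/-- the level of distribution -/
theorem adm_of_pw (Q : Set ℕ) (h : PW Q) (α : ℝ) (hα0 : 0 < α) (hα : α < 1) : Adm Q α := by
  intro U hU
  obtain ⟨A, hA⟩ : ∃ A : ℕ, U ≤ A := exists_nat_ge _
  obtain ⟨C, hC, hsum⟩ := sum_tot
  obtain ⟨x₀, hx₀⟩ := eventually_atTop.1 (h (1 - α) (by linarith) (A + 2))
  obtain ⟨x₁, hx₁⟩ : ∃ x₁, x₁ = max x₀ 3 := ⟨_, rfl⟩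
  have hx₁3 : 3 ≤ x₁ := by rw [hx₁]; exact le_max_right _ _
  have hlog1 : ∀ x : ℝ, 3 ≤ x → 1 ≤ Real.log x := by
    intro x hx
    rw [Real.le_log_iff_exp_le (by linarith)]
    have := Real.exp_one_lt_d9
    linarith
  refine ⟨C + 3 * x₁ ^ 2 * (Real.log x₁) ^ U, fun x hx l hl => ?_⟩
  have hL := hlog1 x hx
  have hx0 : 0 < x := by linarith
  have hpw : x ^ α ≤ x := by
    calc x ^ α ≤ x ^ (1 : ℝ) := Real.rpow_le_rpow_of_exponent_le (by linarith) hα.le
      _ = x := Real.rpow_one x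
  have hYx : (⌊x ^ α⌋₊ : ℝ) ≤ x := (Nat.floor_le (by positivity)).trans hpw
  have hsub : (Icc 1 ⌊x ^ α⌋₊).filter Squarefree ⊆ Icc 1 ⌊x ^ α⌋₊ := filter_subset _ _
  have hfac : 0 ≤ x / (Real.log x) ^ U := by positivity
  have hX1 := hlog1 x₁ hx₁3
  rw [add_mul, add_div, mul_div_assoc, mul_div_assoc]
  rcases le_or_gt x₁ x with hxx | hxx
  · have h1 : ∑ d ∈ (Icc 1 ⌊x ^ α⌋₊).filter Squarefree, |err Q x d (l d)| ≤
        ∑ d ∈ Icc 1 ⌊x ^ α⌋₊, x / (Real.log x) ^ (A + 2) * (1 / (d.totient : ℝ)) := by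
      refine (sum_le_sum_of_subset_of_nonneg hsub (fun _ _ _ => abs_nonneg _)).trans (sum_le_sum fun d hd => ?_)
      rw [mem_Icc] at hd
      have h2 := hx₀ x ((le_max_left _ _).trans (by rw [← hx₁]; exact hxx)) d (l d) hd.1 (by
        have : (1 : ℝ) - (1 - α) = α := by ring
        rw [this]
        have h3 : (d : ℝ) ≤ (⌊x ^ α⌋₊ : ℝ) := by exact_mod_cast hd.2
        exact h3.trans (Nat.floor_le (by positivity))) (hl d)
      refine h2.trans (le_of_eq ?_)
      field_simp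
    rw [← mul_sum] at h1
    have h2 := hsum ⌊x ^ α⌋₊ x hYx hx
    have h3 : x / (Real.log x) ^ (A + 2) * ∑ d ∈ Icc 1 ⌊x ^ α⌋₊, 1 / (d.totient : ℝ) ≤
        x / (Real.log x) ^ (A + 2) * (C * (Real.log x) ^ 2) := by gcongr
    have h4 : x / (Real.log x) ^ (A + 2) * (C * (Real.log x) ^ 2) = C * (x / (Real.log x) ^ A) := by
      rw [pow_add]
      field_simp
    have h5 : x / (Real.log x) ^ A ≤ x / (Real.log x) ^ U := by
      apply div_le_div_of_nonneg_left hx0.le (by positivity)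
      rw [← Real.rpow_natCast]
      exact Real.rpow_le_rpow_of_exponent_le hL hA
    have h6 : C * (x / (Real.log x) ^ A) ≤ C * (x / (Real.log x) ^ U) := by gcongr
    have h7 : 0 ≤ 3 * x₁ ^ 2 * (Real.log x₁) ^ U * (x / (Real.log x) ^ U) := by positivity
    linarith
  · have h1 : ∑ d ∈ (Icc 1 ⌊x ^ α⌋₊).filter Squarefree, |err Q x d (l d)| ≤ x * (3 * x) := by
      have h2 : ∀ d ∈ (Icc 1 ⌊x ^ α⌋₊).filter Squarefree, |err Q x d (l d)| ≤ 3 * x := by
        intro d hd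
        rw [mem_filter, mem_Icc] at hd
        exact err_abs Q x hx d (l d) hd.1.1
      have h3 := Finset.sum_le_card_nsmul _ _ _ h2
      rw [nsmul_eq_mul] at h3
      refine h3.trans ?_
      apply mul_le_mul_of_nonneg_right _ (by linarith)
      have h4 : ((Icc 1 ⌊x ^ α⌋₊).filter Squarefree).card ≤ ⌊x ^ α⌋₊ := by
        refine (card_filter_le _ _).trans ?_
        rw [Nat.card_Icc]
        omega
      have h5 : (((Icc 1 ⌊x ^ α⌋₊).filter Squarefree).card : ℝ) ≤ (⌊x ^ α⌋₊ : ℝ) := by exact_mod_cast h4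
      exact h5.trans hYx
    have h2 : (Real.log x) ^ U ≤ (Real.log x₁) ^ U :=
      Real.rpow_le_rpow (by linarith) (Real.log_le_log hx0 hxx.le) hU.le
    have h3 : x * (3 * x) ≤ 3 * x₁ ^ 2 * (Real.log x₁) ^ U * (x / (Real.log x) ^ U) := by
      have h4 : 1 ≤ (Real.log x₁) ^ U / (Real.log x) ^ U := by
        rw [one_le_div (by positivity)]
        exact h2
      calc x * (3 * x) ≤ 3 * x₁ ^ 2 * 1 := by nlinarith
        _ ≤ 3 * x₁ ^ 2 * (((Real.log x₁) ^ U / (Real.log x) ^ U) * x) := by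
            gcongr
            nlinarith
        _ = _ := by ring
    have h5 : 0 ≤ C * (x / (Real.log x) ^ U) := by positivity
    linarith

/-- failure of the theorem of Siegel and Walfisz -/
theorem nsw {T : ℕ → ℕ} (hTm : Monotone T) (B : ℕ) (hB : ∃ᶠ N : ℕ in atTop, (T N : ℝ) < (Real.log N) ^ B)
    (Q : Set ℕ) (hQ : ∀ A : ℕ, ∀ᶠ N : ℕ in atTop, ∀ d l : ℕ, 1 ≤ d →
      (d : ℝ) * ((N : ℝ) ^ (1 / 8 : ℝ)) ^ 4 ≤ N → l.Coprime d →
      |(cn Q N d l : ℝ) - MT T N d| ≤ 1 / (d.totient : ℝ) * N / (Real.log N) ^ A) : NSW Q := by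
  refine ⟨2 * B + 2, ?_⟩
  have hpow : ∀ᶠ N : ℕ in atTop, 4 * (Real.log N) ^ B ≤ (N : ℝ) ^ (1 / 2 : ℝ) := by
    have h1 := (isLittleO_log_rpow_rpow_atTop (B : ℝ) (show (0 : ℝ) < 1 / 2 by norm_num)).bound
      (show (0 : ℝ) < 1 / 4 by norm_num)
    filter_upwards [tendsto_natCast_atTop_atTop.eventually h1, tlog.eventually_ge_atTop 1] with N g1 g2
    rw [Real.norm_of_nonneg (by positivity), Real.norm_of_nonneg (by positivity), Real.rpow_natCast] at g1
    linarith
  have ev : ∀ᶠ N : ℕ in atTop, (T N : ℝ) < (Real.log N) ^ B → ∃ d : ℕ, d.Prime ∧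
      (d : ℝ) ≤ (Real.log N) ^ (2 * B + 2) ∧ (N : ℝ) / (Real.log N) ^ (2 * B + 2) ≤ |err Q N d 1| := by
    filter_upwards [hQ (2 * B + 2), sqrt_small (2 * B + 2), hpow, tlog.eventually_ge_atTop 96,
      eventually_ge_atTop 64] with N g1 g2 g3 g4 g5 g6
    obtain ⟨L, hL⟩ : ∃ L, L = Real.log N := ⟨_, rfl⟩
    have hN0 : (0 : ℝ) < N := by exact_mod_cast (by omega : 0 < N)
    obtain ⟨z, hz⟩ : ∃ z, z = ⌈(Real.log N) ^ B⌉₊ := ⟨_, rfl⟩
    have hLB : (1 : ℝ) ≤ (Real.log N) ^ B := one_le_pow₀ (by linarith)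
    have hz1 : (Real.log N) ^ B ≤ z := by
      rw [hz]
      exact Nat.le_ceil _
    have hz2 : (z : ℝ) < (Real.log N) ^ B + 1 := by
      rw [hz]
      exact Nat.ceil_lt_add_one (by positivity)
    have hz0 : z ≠ 0 := by
      have : (0 : ℝ) < z := by linarith
      have : 0 < z := by exact_mod_cast this
      omega
    obtain ⟨d, hd, hd1, hd2⟩ := Nat.exists_prime_lt_and_le_two_mul z hz0
    have hd2' : (d : ℝ) ≤ 2 * z := by exact_mod_cast hd2
    have hTd : T N < d := by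
      have : (T N : ℝ) < z := by linarith
      have : T N < z := by exact_mod_cast this
      omega
    have hd4 : (d : ℝ) ≤ 4 * (Real.log N) ^ B := by linarith
    have hd_2 : (2 : ℝ) ≤ d := by exact_mod_cast hd.two_le
    have hd0 : (0 : ℝ) < d := by linarith
    have hN18 : ((N : ℝ) ^ (1 / 8 : ℝ)) ^ 4 = (N : ℝ) ^ (1 / 2 : ℝ) := by
      rw [← Real.rpow_natCast, ← Real.rpow_mul hN0.le]
      norm_num
    have h1 := g1 d 1 hd.one_lt.le (by
      rw [hN18]
      calc (d : ℝ) * (N : ℝ) ^ (1 / 2 : ℝ) ≤ (N : ℝ) ^ (1 / 2 : ℝ) * (N : ℝ) ^ (1 / 2 : ℝ) := by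
            apply mul_le_mul_of_nonneg_right (hd4.trans g3) (by positivity)
        _ = N := by
            rw [← Real.rpow_add hN0]
            norm_num) (Nat.coprime_one_left d)
    have h3 := li_sum (N : ℝ) (Nat.sqrt N) (by
      rw [Nat.le_sqrt]
      omega) (by exact_mod_cast Nat.sqrt_le_self N)
    rw [Nat.floor_natCast] at h3
    obtain ⟨S, hS⟩ : ∃ S, S = ∑ n ∈ Ioc (Nat.sqrt N) N, 1 / Real.log (n : ℝ) := ⟨_, rfl⟩
    have hMT : MT T N d = 1 / (d : ℝ) * S := by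
      unfold MT
      rw [hS, mul_sum]
      apply sum_congr rfl
      intro n hn
      rw [mem_Ioc] at hn
      rw [ph_prime d (T n) hd (lt_of_le_of_lt (hTm hn.2) hTd)]
      ring
    have hSlow : N / (2 * L) ≤ S := by
      have h5 := MT_ge T N d hd.one_lt.le (by omega)
      rw [hMT, ← hL] at h5
      have h6 : (d : ℝ) * (N / (2 * d * L)) ≤ d * (1 / (d : ℝ) * S) := by gcongr
      have h7 : (d : ℝ) * (N / (2 * d * L)) = N / (2 * L) := by field_simp
      have h8 : (d : ℝ) * (1 / (d : ℝ) * S) = S := by field_simp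
      linarith
    rw [hMT, Nat.totient_prime hd, Nat.cast_sub hd.one_lt.le, Nat.cast_one] at h1
    rw [← hS] at h3
    have herr : err Q N d 1 = cn Q N d 1 - li N / (d - 1) := by
      unfold err
      rw [Nat.floor_natCast, Nat.totient_prime hd, Nat.cast_sub hd.one_lt.le, Nat.cast_one]
    rw [← hL] at g2 g4 h1 hd4 ⊢
    have hL0 : 0 < L := by linarith
    obtain ⟨f, hf⟩ : ∃ f : ℝ, f = 1 / ((d : ℝ) - 1) := ⟨_, rfl⟩
    have hf0 : 0 < f := by
      rw [hf]
      apply one_div_pos.2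
      linarith
    have hf1 : f ≤ 1 := by
      rw [hf, div_le_one (by linarith)]
      linarith
    rw [← hf] at h1
    have hfd : 1 / (d : ℝ) ^ 2 ≤ f - 1 / d := by
      have h5 : f - 1 / d = 1 / (((d : ℝ) - 1) * d) := by
        rw [hf]
        have : (d : ℝ) - 1 ≠ 0 := by
          have : 0 < (d : ℝ) - 1 := by linarith
          exact this.ne'
        field_simp
        ring
      rw [h5]
      apply one_div_le_one_div_of_le
      · apply mul_pos _ hd0
        linarith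
      · nlinarith
    have hd2L : (d : ℝ) ^ 2 ≤ 16 * L ^ (2 * B) := by
      have h5 := pow_le_pow_left₀ hd0.le hd4 2
      have h6 : (4 * L ^ B) ^ 2 = 16 * L ^ (2 * B) := by ring
      linarith
    have hmain : N / (32 * L ^ (2 * B + 1)) ≤ (f - 1 / d) * S := by
      calc N / (32 * L ^ (2 * B + 1)) = 1 / (16 * L ^ (2 * B)) * (N / (2 * L)) := by
            rw [pow_succ]
            field_simp
            norm_num
        _ ≤ 1 / (d : ℝ) ^ 2 * (N / (2 * L)) := by
            apply mul_le_mul_of_nonneg_right _ (by positivity)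
            exact one_div_le_one_div_of_le (by positivity) hd2L
        _ ≤ (f - 1 / d) * S := by
            apply mul_le_mul hfd hSlow (by positivity)
            have : 0 ≤ 1 / (d : ℝ) ^ 2 := by positivity
            linarith
    have h9 : 3 * (N / L ^ (2 * B + 2)) ≤ N / (32 * L ^ (2 * B + 1)) := by
      have h10 : 3 * (N / L ^ (2 * B + 2)) = (96 / L) * (N / (32 * L ^ (2 * B + 1))) := by
        have : L ^ (2 * B + 2) = L ^ (2 * B + 1) * L := by rw [← pow_succ]
        rw [this]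
        field_simp
        norm_num
      rw [h10]
      have h11 : 96 / L ≤ 1 := by
        rw [div_le_one hL0]
        exact g4
      have h12 : 0 ≤ N / (32 * L ^ (2 * B + 1)) := by positivity
      nlinarith
    obtain ⟨Y, hY⟩ : ∃ Y, Y = N / L ^ (2 * B + 2) := ⟨_, rfl⟩
    have hY0 : 0 ≤ Y := by rw [hY]; positivity
    have h13 : f * N / L ^ (2 * B + 2) = f * Y := by
      rw [hY]
      ring
    rw [h13] at h1
    rw [← hY] at g2 h9 ⊢
    have h14 := abs_le.1 h1
    have h15 := abs_le.1 h3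
    have h16 : f * Y ≤ Y := by nlinarith
    have h17 : li N / ((d : ℝ) - 1) = f * li N := by
      rw [hf]
      ring
    have h18 : f * S - f * Y ≤ f * li N := by
      have : f * (S - Y) ≤ f * li N := by
        apply mul_le_mul_of_nonneg_left _ hf0.le
        linarith [h15.1]
      linarith
    refine ⟨d, hd, ?_, ?_⟩
    · calc (d : ℝ) ≤ 4 * L ^ B := hd4
        _ ≤ L * L ^ B := by gcongr; linarith
        _ = L ^ (B + 1) := by ring
        _ ≤ L ^ (2 * B + 2) := pow_le_pow_right₀ (by linarith) (by omega)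
    · rw [herr, h17, abs_sub_comm]
      refine le_trans ?_ (le_abs_self _)
      linarith [h14.2]
  exact (hB.and_eventually ev).mono (fun N h => h.2 h.1)

/-- no exponent is admissible -/
theorem not_adm (Q : Set ℕ) (h : NSW Q) (α : ℝ) (hα : 0 < α) : ¬ Adm Q α := by
  intro hA
  obtain ⟨B, hB⟩ := h
  obtain ⟨C, hC⟩ := hA ((B + 1 : ℕ) : ℝ) (by positivity)
  have hpow : ∀ᶠ N : ℕ in atTop, (Real.log N) ^ B ≤ (N : ℝ) ^ α := by
    have h1 := (isLittleO_log_rpow_rpow_atTop (B : ℝ) hα).bound one_pos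
    filter_upwards [tendsto_natCast_atTop_atTop.eventually h1, tlog.eventually_ge_atTop 1] with N g1 g2
    rw [Real.norm_of_nonneg (by positivity), Real.norm_of_nonneg (by positivity), Real.rpow_natCast] at g1
    linarith
  obtain ⟨N, ⟨d, h1, h2, h3⟩, h4, h5, h6, h7⟩ := (hB.and_eventually (hpow.and ((tlog.eventually_gt_atTop C).and
    ((tlog.eventually_ge_atTop 1).and (eventually_ge_atTop 3))))).exists
  have hN3 : (3 : ℝ) ≤ N := by exact_mod_cast h7
  have hN0 : (0 : ℝ) < N := by linarith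
  have h8 := hC N hN3 (fun _ => 1) (fun d => Nat.coprime_one_left d)
  have hmem : d ∈ (Icc 1 ⌊(N : ℝ) ^ α⌋₊).filter Squarefree := by
    rw [mem_filter, mem_Icc]
    refine ⟨⟨h1.one_lt.le, Nat.le_floor (h2.trans h4)⟩, h1.squarefree⟩
  have h9 := Finset.single_le_sum (f := fun d => |err Q N d 1|) (fun _ _ => abs_nonneg _) hmem
  have h10 : (N : ℝ) / (Real.log N) ^ B ≤ C * N / (Real.log N) ^ (B + 1) := by
    refine h3.trans (h9.trans (h8.trans (le_of_eq ?_)))
    rw [Real.rpow_natCast]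
  obtain ⟨L, hL⟩ : ∃ L, L = Real.log N := ⟨_, rfl⟩
  rw [← hL] at h5 h6 h10
  have hL0 : 0 < L := by linarith
  rw [div_le_div_iff₀ (by positivity) (by positivity), pow_succ] at h10
  have h11 : 0 < (N : ℝ) * L ^ B := by positivity
  have h12 : L * (N * L ^ B) ≤ C * (N * L ^ B) := by linarith
  have h13 := le_of_mul_le_mul_right h12 h11
  linarith

/-- the main theorem -/
theorem main {T : ℕ → ℕ} (hTm : Monotone T) (hT : Sub T) {E : ℕ → Set Ω} (hE : Sieved μ E T) :
    (Deep T → ∀ᵐ ω ∂μ, (∀ α : ℝ, 0 < α → α < 1 → Adm {n | ω ∈ E n} α) ∧ PW {n | ω ∈ E n}) ∧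
    (¬ Deep T → ∀ᵐ ω ∂μ, (∀ α : ℝ, 0 < α → ¬ Adm {n | ω ∈ E n} α) ∧ NSW {n | ω ∈ E n}) := by
  have h := ae_all_iff.2 (fun j : ℕ => asym hTm hT hE (1 / ((j : ℝ) + 8)) (by positivity) (by
    apply one_div_le_one_div_of_le (by norm_num)
    have : (0 : ℝ) ≤ j := Nat.cast_nonneg j
    linarith))
  constructor
  · intro hD
    filter_upwards [h] with ω hω
    have hpw := pointwise hTm hD {n | ω ∈ E n} (fun j A => hω j A)
    exact ⟨fun α hα0 hα => adm_of_pw _ hpw α hα0 hα, hpw⟩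
  · intro hD
    unfold Deep at hD
    push Not at hD
    obtain ⟨B, hB⟩ := hD
    filter_upwards [h] with ω hω
    have h0 := hω 0
    rw [Nat.cast_zero, zero_add] at h0
    have hns := nsw hTm B hB {n | ω ∈ E n} h0
    exact ⟨fun α hα => not_adm _ hns α hα, hns⟩

end Pool.Agent.U839.Eh
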